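import Mathlib

/-!
# Multiplier estimates for seminorms with a resolvent bound: definitions and lemma jobs

`V` is a complex vector space with a basis `b` and numbers `a i ≥ 1` (think of the operator `A`
with `A (b i) = a i • b i`). For a function `f` on the reals `mult b a f` is the operator `f(A)`.
A seminorm `N` on `V` has the property `Res b a B N` if `(1 + ρ) N(x) ≤ B N((A + ρ) x)` for all
`ρ ≥ 0`, that is, the resolvent `(A + ρ)⁻¹` is bounded by `B / (1 + ρ)`.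
-/

open Filter Topology Set MeasureTheory
open scoped NNReal ENNReal

namespace Q4.SN

section core

variable {I V : Type*} [AddCommGroup V] [Module ℂ V]

/-- The operator `f(A)`: it multiplies the basis vector `b i` by `f (a i)`. -/
noncomputable def mult (b : Module.Basis I ℂ V) (a : I → ℝ) (f : ℝ → ℝ) : V →ₗ[ℂ] V :=
  b.constr ℂ (fun i => ((f (a i) : ℝ) : ℂ) • b i)

theorem mult_basis (b : Module.Basis I ℂ V) (a : I → ℝ) (f : ℝ → ℝ) (i : I) :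
    mult b a f (b i) = ((f (a i) : ℝ) : ℂ) • b i := by
  simp [mult]

theorem mult_mult (b : Module.Basis I ℂ V) (a : I → ℝ) (f g : ℝ → ℝ) (x : V) :
    mult b a f (mult b a g x) = mult b a (fun t => f t * g t) x := by
  have : (mult b a f).comp (mult b a g) = mult b a (fun t => f t * g t) := by
    apply b.ext
    intro i
    rw [LinearMap.comp_apply, mult_basis, map_smul, mult_basis, mult_basis, smul_smul]
    congr 1
    push_cast
    ring
  exact congrArg (fun L : V →ₗ[ℂ] V => L x) this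

theorem mult_add (b : Module.Basis I ℂ V) (a : I → ℝ) (f g : ℝ → ℝ) (x : V) :
    mult b a (fun t => f t + g t) x = mult b a f x + mult b a g x := by
  have : mult b a (fun t => f t + g t) = mult b a f + mult b a g := by
    apply b.ext
    intro i
    rw [LinearMap.add_apply, mult_basis, mult_basis, mult_basis, ← add_smul]
    congr 1
    push_cast
    ring
  exact congrArg (fun L : V →ₗ[ℂ] V => L x) this

theorem mult_sub (b : Module.Basis I ℂ V) (a : I → ℝ) (f g : ℝ → ℝ) (x : V) :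
    mult b a (fun t => f t - g t) x = mult b a f x - mult b a g x := by
  have : mult b a (fun t => f t - g t) = mult b a f - mult b a g := by
    apply b.ext
    intro i
    rw [LinearMap.sub_apply, mult_basis, mult_basis, mult_basis, ← sub_smul]
    congr 1
    push_cast
    ring
  exact congrArg (fun L : V →ₗ[ℂ] V => L x) this

theorem mult_const (b : Module.Basis I ℂ V) (a : I → ℝ) (c : ℝ) (x : V) :
    mult b a (fun _ => c) x = (c : ℂ) • x := by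
  have : mult b a (fun _ => c) = (c : ℂ) • LinearMap.id := by
    apply b.ext
    intro i
    rw [mult_basis]
    simp
  exact congrArg (fun L : V →ₗ[ℂ] V => L x) this

theorem mult_congr (b : Module.Basis I ℂ V) (a : I → ℝ) {f g : ℝ → ℝ}
    (h : ∀ i, f (a i) = g (a i)) (x : V) : mult b a f x = mult b a g x := by
  have : mult b a f = mult b a g := by
    apply b.ext
    intro i
    rw [mult_basis, mult_basis, h]
  exact congrArg (fun L : V →ₗ[ℂ] V => L x) this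

/-- The resolvent bound: `(1 + ρ) N(x) ≤ B N((A + ρ) x)` for all `ρ ≥ 0`. -/
def Res (b : Module.Basis I ℂ V) (a : I → ℝ) (B : ℝ) (N : Seminorm ℂ V) : Prop :=
  ∀ ρ : ℝ, 0 ≤ ρ → ∀ x, (1 + ρ) * N x ≤ B * N (mult b a (fun t => t + ρ) x)

end core

/-- **Job SC** (a scalar integral). For a natural number `m` and `0 < α < m` there is a constant
`c > 0` with `∫_0^∞ l^(m - 1 - α) / (t + l)^m dl = c t^(-α)` for all `t > 0`, the integrand being
integrable on `(0, ∞)`.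

Proof. For `t = 1` the integrand is at most `l^(m-1-α)` on `(0, 1]`, integrable as
`m - 1 - α > -1`, and at most `l^(-1-α)` on `[1, ∞)`, integrable as `-1 - α < -1`; it is positive
and so is its integral `c`. The substitution `l = t x` gives the general case:
`∫_0^∞ (t x)^(m-1-α) / (t + t x)^m t dx = t^(m-1-α-m+1) c`
(`MeasureTheory.integral_comp_mul_left_Ioi`, `MeasureTheory.integrableOn_Ioi_comp_mul_left_iff`). -/
def SSC : Prop :=
  ∀ (m : ℕ) (α : ℝ), 0 < α → α < m → ∃ c : ℝ, 0 < c ∧ ∀ t : ℝ, 0 < t →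
    IntegrableOn (fun l : ℝ => l ^ ((m : ℝ) - 1 - α) / (t + l) ^ m) (Ioi 0) ∧
      ∫ l in Ioi (0 : ℝ), l ^ ((m : ℝ) - 1 - α) / (t + l) ^ m = c * t ^ (-α)

universe u v

/-- **Job INT** (a seminorm of an integral of multipliers). If `f (a i) = ∫_S g(l, a i) dl` for
all `i` (with integrable integrands) and `N (g(l, A) x) ≤ h l` on `S` with `h` integrable, then
`N (f(A) x) ≤ ∫_S h`.

Proof. Let `y = f(A) x`. By Hahn-Banach (`exists_extension_of_le_sublinear` over the reals, applied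
on the real line spanned by `y`, or to the subspace `⊥`-free version for seminorms) there is a real
linear `φ : V → ℝ` with `φ z ≤ N z` for all `z` and `φ y = N y`. Write `x = ∑ x_i b_i` (finite sum
over `s = (b.repr x).support`); then `g(l, A) x = ∑_i g(l, a i) • (x_i b_i)` with REAL coefficients
`g(l, a i)`, so `φ (g(l, A) x) = ∑_i g(l, a i) φ(x_i b_i)` is integrable in `l` on `S`, with
integral `∑_i f(a i) φ(x_i b_i) = φ y = N y`; and `φ (g(l, A) x) ≤ N (g(l, A) x) ≤ h l`. Integrate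
(`MeasureTheory.setIntegral_mono_on`). -/
def SINT : Prop :=
  ∀ {I : Type u} {V : Type v} [AddCommGroup V] [Module ℂ V] (b : Module.Basis I ℂ V) (a : I → ℝ)
    (N : Seminorm ℂ V) (S : Set ℝ) (g : ℝ → ℝ → ℝ) (f h : ℝ → ℝ) (x : V),
    MeasurableSet S → (∀ i, IntegrableOn (fun l => g l (a i)) S) →
    (∀ i, ∫ l in S, g l (a i) = f (a i)) → IntegrableOn h S →
    (∀ l ∈ S, N (mult b a (g l) x) ≤ h l) → N (mult b a f x) ≤ ∫ l in S, h l

/-- **Job INTP** (integer powers; elementary). If all `a i ≥ 1` and `Res b a B N` (`B ≥ 1`), then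
for all natural numbers `k ≤ m`, all `ρ ≥ 0` and all `x`
`N (A^k (A + ρ)^(-m) x) ≤ (1 + B)^k (B / (1 + ρ))^(m - k) N(x)`, and
`N ((ρ / (A + ρ))^m x) ≤ B^m N(x)`, and for `0 ≤ l ≤ 1` also
`N (((A + 1) / (A + l))^m x) ≤ (1 + B)^m N(x)`.

Proof. `Res` applied to `mult (fun t => 1 / (t + ρ)) x` gives
`N ((A + ρ)⁻¹ x) ≤ B / (1 + ρ) N x` (as `(t + ρ) * (1 / (t + ρ)) = 1` at `t = a i`; use
`mult_mult`, `mult_congr`, `mult_const`). Hence with `A (A + ρ)⁻¹ = 1 - ρ (A + ρ)⁻¹`: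
`N (A (A + ρ)⁻¹ x) ≤ (1 + ρ B / (1 + ρ)) N x ≤ (1 + B) N x`, and with
`(A + 1) / (A + l) = 1 + (1 - l) / (A + l)` for `0 ≤ l ≤ 1`:
`N ((A + 1) (A + l)⁻¹ x) ≤ (1 + (1 - l) B / (1 + l)) N x ≤ (1 + B) N x`. Then use induction on `k`,
`m` (iterate `m - k` times the first and `k` times the second bound). -/
def SINTP : Prop :=
  ∀ {I : Type u} {V : Type v} [AddCommGroup V] [Module ℂ V] (b : Module.Basis I ℂ V) (a : I → ℝ)
    (N : Seminorm ℂ V) (B : ℝ), (∀ i, 1 ≤ a i) → 1 ≤ B → Res b a B N →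
    (∀ (k m : ℕ) (ρ : ℝ) (x : V), k ≤ m → 0 ≤ ρ →
      N (mult b a (fun t => t ^ k / (t + ρ) ^ m) x) ≤
        (1 + B) ^ k * (B / (1 + ρ)) ^ (m - k) * N x) ∧
    (∀ (m : ℕ) (ρ : ℝ) (x : V), 0 ≤ ρ →
      N (mult b a (fun t => (ρ / (t + ρ)) ^ m) x) ≤ B ^ m * N x) ∧
    (∀ (m : ℕ) (l : ℝ) (x : V), 0 ≤ l → l ≤ 1 →
      N (mult b a (fun t => ((t + 1) / (t + l)) ^ m) x) ≤ (1 + B) ^ m * N x)

/-- **Job FR** (real powers), from SC, INT and INTP. If all `a i ≥ 1` and `Res b a B N` (`B ≥ 1`),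
then for every natural number `m` and every real `0 ≤ α ≤ m` there is `C ≥ 0` with
`N (A^α (A + ρ)^(-m) x) ≤ C ρ^(α - m) N(x)` for all `ρ ≥ 1` and all `x`.

Proof. If `α = k` is an integer use INTP (`Real.rpow_natCast`; `B / (1 + ρ) ≤ B / ρ`). Otherwise let
`k = ⌈α⌉ ≤ m`, so `1 ≤ k`, and `γ = k - α ∈ (0, 1)`. By SC with `m = 1`: for `t ≥ 1`
`t^α / (t + ρ)^m = t^k t^(-γ) / (t + ρ)^m
  = c⁻¹ ∫_0^∞ l^(-γ) t^k / ((t + l) (t + ρ)^m) dl`.
For `0 < l ≤ ρ` write `t^k / ((t + l)(t + ρ)^m) = (t / (t + l)) * (t^(k-1) / (t + ρ)^m)`: norm at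
most `(1 + B) (1 + B)^(k-1) (B / ρ)^(m-k+1)`; for `l > ρ` write it as
`(1 / (t + l)) * (t^k / (t + ρ)^m)`: norm at most `(B / l) (1 + B)^k (B / ρ)^(m-k)`. By INT with
`S = (0, ∞)` and `h l = c⁻¹ l^(-γ) × (these bounds) × N x`:
`∫_0^ρ l^(-γ) dl = ρ^(1-γ) / (1-γ)` and `∫_ρ^∞ l^(-γ-1) dl = ρ^(-γ) / γ`, so the total is at most
`C ρ^(1 - γ - m + k - 1) = C ρ^(α - m)` (times `N x`). (One may apply INT separately on `(0, ρ]`
and `(ρ, ∞)` with `f` split in two pieces.) -/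
def SFR : Prop :=
  ∀ {I : Type u} {V : Type v} [AddCommGroup V] [Module ℂ V] (b : Module.Basis I ℂ V) (a : I → ℝ)
    (N : Seminorm ℂ V) (B : ℝ), (∀ i, 1 ≤ a i) → 1 ≤ B → Res b a B N →
    ∀ (m : ℕ) (α : ℝ), 0 ≤ α → α ≤ m → ∃ C : ℝ, 0 ≤ C ∧ ∀ (ρ : ℝ) (x : V), 1 ≤ ρ →
      N (mult b a (fun t => t ^ α / (t + ρ) ^ m) x) ≤ C * ρ ^ (α - m) * N x

/-- **Job NEG** (negative powers), from SC, INT and INTP. If all `a i ≥ 1` and `Res b a B N`
(`B ≥ 1`), then for every `α ≥ 0` there is `C ≥ 0` with `N (A^(-α) x) ≤ C N(x)` for all `x`.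

Proof. `α = 0`: `t^0 = 1`, `C = 1`. For `α > 0` take a natural number `m > α`; by SC
`t^(-α) = c⁻¹ ∫_0^∞ l^(m-1-α) (t + l)^(-m) dl`, and by INTP (with `k = 0`)
`N ((A + l)^(-m) x) ≤ (B / (1 + l))^m N x`; use INT with
`h l = c⁻¹ l^(m-1-α) / (1 + l)^m * B^m * N x`, integrable by SC with `t = 1`. -/
def SNEG : Prop :=
  ∀ {I : Type u} {V : Type v} [AddCommGroup V] [Module ℂ V] (b : Module.Basis I ℂ V) (a : I → ℝ)
    (N : Seminorm ℂ V) (B : ℝ), (∀ i, 1 ≤ a i) → 1 ≤ B → Res b a B N →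
    ∀ α : ℝ, 0 ≤ α → ∃ C : ℝ, 0 ≤ C ∧ ∀ x : V,
      N (mult b a (fun t => t ^ (-α)) x) ≤ C * N x

/-- **Job KUP** (decomposition into low and high frequencies), from FR and INTP. If all `a i ≥ 1`
and `Res b a B N` (`B ≥ 1`), then for `0 ≤ s ≤ u` there is `C ≥ 0` such that for all `ρ ≥ 1` and
all `x` there are `x0, x1` with `x = x0 + x1` and
`N(x0) ≤ C ρ^(-s/2) N(A^(s/2) x)`, `N(A^(u/2) x1) ≤ C ρ^((u-s)/2) N(A^(s/2) x)`.

Proof. Take a natural number `m ≥ 1` with `u / 2 ≤ m` and `z(t) = ρ / (t + ρ)`,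
`x0 = (1 - z(A)^m)^m x`, `x1 = x - x0`. We have
`(1 - z^m)^m = (1 - z)^m (∑_{j<m} z^j)^m` and `1 - z = t / (t + ρ)`, and
`1 - (1 - z^m)^m = z^m ∑_{j<m} (1 - z^m)^j`. By INTP `N (z(A)^j y) ≤ B^j N y`, so polynomials
in `z(A)` are bounded by constants depending on `m`, `B` only. Hence
`N(x0) ≤ C N ((t / (t + ρ))^m (A) x) = C N ((t^(m - s/2) / (t + ρ)^m)(A) A^(s/2) x)
 ≤ C' ρ^(-s/2) N(A^(s/2) x)` by FR with `α = m - s/2`, and
`N(A^(u/2) x1) ≤ C N ((t^(u/2) ρ^m / (t + ρ)^m)(A) x)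
 = C ρ^m N ((t^((u-s)/2) / (t + ρ)^m)(A) A^(s/2) x) ≤ C' ρ^m ρ^((u-s)/2 - m) N(A^(s/2) x)`
by FR with `α = (u-s)/2 ≤ m`. -/
def SKUP : Prop :=
  ∀ {I : Type u} {V : Type v} [AddCommGroup V] [Module ℂ V] (b : Module.Basis I ℂ V) (a : I → ℝ)
    (N : Seminorm ℂ V) (B : ℝ), (∀ i, 1 ≤ a i) → 1 ≤ B → Res b a B N →
    ∀ s u : ℝ, 0 ≤ s → s ≤ u → ∃ C : ℝ, 0 ≤ C ∧ ∀ (ρ : ℝ) (x : V), 1 ≤ ρ →
      ∃ x0 x1 : V, x = x0 + x1 ∧
        N x0 ≤ C * ρ ^ (-(s / 2)) * N (mult b a (fun t => t ^ (s / 2)) x) ∧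
        N (mult b a (fun t => t ^ (u / 2)) x1) ≤
          C * ρ ^ ((u - s) / 2) * N (mult b a (fun t => t ^ (s / 2)) x)

/-- **Job KLOW** (the reverse estimate), from SC, INT, INTP and FR. Let `N0`, `N1` be two
seminorms with `Res b a B` (`B ≥ 1`, all `a i ≥ 1`) and `N1(x) ≤ C0 N0(A^(u/2) x)` for all `x`, where
`0 ≤ s < u`, and let `α > (u - s) / 2`. Then there is `C ≥ 0` such that for every `x` and every
`r ≥ 0`: if for all `ρ ≥ 1` there is a decomposition `x = x0 + x1` with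
`N0(x0) + ρ^(-u/2) N1(x1) ≤ ρ^(-s/2) r`, then `N1(A^(-α) x) ≤ C r`.

Proof. Take a natural number `m` with `α < m` and `u / 2 ≤ m`. By SC
`t^(-α) = c⁻¹ ∫_0^∞ l^(m-1-α) (t + l)^(-m) dl`. For `l ≥ 1` take the decomposition for `ρ = l`:
`N1((A + l)^(-m) x) ≤ N1((A + l)^(-m) x1) + C0 N0((t^(u/2) / (t + l)^m)(A) x0)
 ≤ (B / l)^m N1(x1) + C0 C_FR l^(u/2 - m) N0(x0) ≤ C' l^(u/2 - m) (l^(-u/2) N1(x1) + N0(x0))
 ≤ C' l^((u-s)/2 - m) r`.
For `0 < l ≤ 1` take the decomposition for `ρ = 1`, `N0(x0) + N1(x1) ≤ r`: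
`N1((A + l)^(-m) x1) ≤ B^m N1(x1)` and
`N1((A + l)^(-m) x0) ≤ C0 N0(((t + 1) / (t + l))^m (A) (t^(u/2) / (t + 1)^m)(A) x0) ≤ C'' N0(x0)`
by INTP (third part) and FR with `ρ = 1`. Now INT with `h l = c⁻¹ l^(m-1-α) × bound`: integrable,
since `m - 1 - α > -1` near `0` and `m - 1 - α + (u-s)/2 - m < -1` at infinity. -/
def SKLOW : Prop :=
  ∀ {I : Type u} {V : Type v} [AddCommGroup V] [Module ℂ V] (b : Module.Basis I ℂ V) (a : I → ℝ)
    (N0 N1 : Seminorm ℂ V) (B C0 : ℝ), (∀ i, 1 ≤ a i) → 1 ≤ B → Res b a B N0 → Res b a B N1 →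
    ∀ s u α : ℝ, 0 ≤ s → s < u → (u - s) / 2 < α →
      (∀ x, N1 x ≤ C0 * N0 (mult b a (fun t => t ^ (u / 2)) x)) →
      ∃ C : ℝ, 0 ≤ C ∧ ∀ (x : V) (r : ℝ), 0 ≤ r →
        (∀ ρ : ℝ, 1 ≤ ρ → ∃ x0 x1 : V, x = x0 + x1 ∧
          N0 x0 + ρ ^ (-(u / 2)) * N1 x1 ≤ ρ ^ (-(s / 2)) * r) →
        N1 (mult b a (fun t => t ^ (-α)) x) ≤ C * r

end Q4.SN
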