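import Pool.Agent.Q4.SN.Bas

/-!
# The averaged norms
-/

open Filter Topology Set
open scoped NNReal ENNReal

namespace Q4.SN

universe u v

variable {G : Type u} [Group G] [TopologicalSpace G]
variable {E : Type v} [AddCommGroup E] [Module ℂ E] [TopologicalSpace E]

theorem cost_nonneg (S : Setup G E) (p : Seminorm ℂ E) (s : ℝ) (l : List (G × E)) :
    0 ≤ cost S p s l := by
  unfold cost
  apply List.sum_nonneg
  intro r hr
  simp only [List.mem_map] at hr
  obtain ⟨z, _, rfl⟩ := hr
  exact mul_nonneg (S.w_pos _).le (apply_nonneg p _)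

theorem cost_append (S : Setup G E) (p : Seminorm ℂ E) (s : ℝ) (l l' : List (G × E)) :
    cost S p s (l ++ l') = cost S p s l + cost S p s l' := by
  simp [cost]

theorem avg_bdd (S : Setup G E) (p : Seminorm ℂ E) (s : ℝ) (x : E) :
    BddBelow {r : ℝ | ∃ l : List (G × E), (l.map Prod.snd).sum = x ∧ r = cost S p s l} := by
  refine ⟨0, ?_⟩
  rintro r ⟨l, _, rfl⟩
  exact cost_nonneg S p s l

theorem avg_le_cost (S : Setup G E) (p : Seminorm ℂ E) (s : ℝ) (l : List (G × E)) :
    avg S p s (l.map Prod.snd).sum ≤ cost S p s l :=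
  csInf_le (avg_bdd S p s _) ⟨l, rfl, rfl⟩

theorem avg_set_nonempty (S : Setup G E) (p : Seminorm ℂ E) (s : ℝ) (x : E) :
    {r : ℝ | ∃ l : List (G × E), (l.map Prod.snd).sum = x ∧ r = cost S p s l}.Nonempty :=
  ⟨_, [(1, x)], by simp, rfl⟩

theorem exists_cost_lt (S : Setup G E) (p : Seminorm ℂ E) (s : ℝ) (x : E) {c : ℝ}
    (h : avg S p s x < c) : ∃ l : List (G × E), (l.map Prod.snd).sum = x ∧ cost S p s l < c := by
  obtain ⟨r, ⟨l, hl, rfl⟩, hr⟩ := exists_lt_of_csInf_lt (avg_set_nonempty S p s x) h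
  exact ⟨l, hl, hr⟩

theorem avg_nonneg (S : Setup G E) (p : Seminorm ℂ E) (s : ℝ) (x : E) : 0 ≤ avg S p s x := by
  apply le_csInf (avg_set_nonempty S p s x)
  rintro r ⟨l, _, rfl⟩
  exact cost_nonneg S p s l

theorem avg_le (S : Setup G E) (p : Seminorm ℂ E) (s : ℝ) (x : E) :
    avg S p s x ≤ S.w 1 * p (S.D s x) := by
  have := avg_le_cost S p s [(1, x)]
  simpa [cost] using this

theorem avg_add (S : Setup G E) (p : Seminorm ℂ E) (s : ℝ) (x y : E) :
    avg S p s (x + y) ≤ avg S p s x + avg S p s y := by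
  apply le_of_forall_pos_le_add
  intro ε hε
  obtain ⟨l, hl, h1⟩ := exists_cost_lt S p s x (c := avg S p s x + ε / 2) (by linarith)
  obtain ⟨l', hl', h2⟩ := exists_cost_lt S p s y (c := avg S p s y + ε / 2) (by linarith)
  have := avg_le_cost S p s (l ++ l')
  rw [cost_append, List.map_append, List.sum_append, hl, hl'] at this
  linarith

theorem cost_smul (S : Setup G E) (p : Seminorm ℂ E) (s : ℝ) (z : ℂ) (l : List (G × E)) :
    cost S p s (l.map fun y => (y.1, z • y.2)) = ‖z‖ * cost S p s l := by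
  unfold cost
  rw [List.map_map, ← List.sum_map_mul_left]
  congr 1
  apply List.map_congr_left
  intro y _
  simp only [Function.comp_apply, map_smul, map_smul_eq_mul]
  ring

theorem avg_smul_le (S : Setup G E) (p : Seminorm ℂ E) (s : ℝ) (z : ℂ) (x : E) :
    avg S p s (z • x) ≤ ‖z‖ * avg S p s x := by
  apply le_of_forall_pos_le_add
  intro ε hε
  obtain ⟨l, hl, h1⟩ := exists_cost_lt S p s x (c := avg S p s x + ε / (‖z‖ + 1))
    (by have : 0 < ε / (‖z‖ + 1) := by positivity
        linarith)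
  have h2 := avg_le_cost S p s (l.map fun y => (y.1, z • y.2))
  rw [cost_smul] at h2
  have h3 : ((l.map fun y => (y.1, z • y.2)).map Prod.snd).sum = z • x := by
    rw [← hl, List.map_map, List.smul_sum, List.map_map]
    rfl
  rw [h3] at h2
  have h4 : ‖z‖ * cost S p s l ≤ ‖z‖ * (avg S p s x + ε / (‖z‖ + 1)) :=
    mul_le_mul_of_nonneg_left h1.le (norm_nonneg z)
  have h5 : ‖z‖ * (ε / (‖z‖ + 1)) ≤ ε := by
    rw [mul_div_assoc', div_le_iff₀ (by positivity)]
    nlinarith [norm_nonneg z]
  linarith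

theorem avg_zero (S : Setup G E) (p : Seminorm ℂ E) (s : ℝ) : avg S p s 0 = 0 := by
  have h1 := avg_le S p s 0
  simp only [map_zero, mul_zero] at h1
  exact le_antisymm h1 (avg_nonneg S p s 0)

/-- The averaged norm as a seminorm. -/
noncomputable def avgS (S : Setup G E) (p : Seminorm ℂ E) (s : ℝ) : Seminorm ℂ E :=
  Seminorm.of (avg S p s) (avg_add S p s) (by
    intro z x
    apply le_antisymm (avg_smul_le S p s z x)
    rcases eq_or_ne z 0 with rfl | hz
    · simp [avg_nonneg]
    · have h1 := avg_smul_le S p s z⁻¹ (z • x)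
      rw [inv_smul_smul₀ hz, norm_inv] at h1
      have h2 : 0 < ‖z‖ := norm_pos_iff.mpr hz
      calc ‖z‖ * avg S p s x ≤ ‖z‖ * (‖z‖⁻¹ * avg S p s (z • x)) :=
            mul_le_mul_of_nonneg_left h1 h2.le
        _ = avg S p s (z • x) := by field_simp)

theorem avgS_apply (S : Setup G E) (p : Seminorm ℂ E) (s : ℝ) (x : E) :
    avgS S p s x = avg S p s x := rfl

theorem avg_action (S : Setup G E) (p : Seminorm ℂ E) (s : ℝ) (g : G) (x : E) :
    avg S p s (S.π g x) ≤ S.w g * avg S p s x := by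
  have hw := S.w_pos g
  apply le_of_forall_pos_le_add
  intro ε hε
  obtain ⟨l, hl, h1⟩ := exists_cost_lt S p s x (c := avg S p s x + ε / S.w g)
    (by have : 0 < ε / S.w g := by positivity
        linarith)
  have h2 := avg_le_cost S p s (l.map fun y => (y.1 * g⁻¹, S.π g y.2))
  have h3 : ((l.map fun y => (y.1 * g⁻¹, S.π g y.2)).map Prod.snd).sum = S.π g x := by
    rw [← hl, List.map_map, map_list_sum, List.map_map]
    rfl
  have h4 : cost S p s (l.map fun y => (y.1 * g⁻¹, S.π g y.2)) ≤ S.w g * cost S p s l := by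
    unfold cost
    rw [List.map_map, ← List.sum_map_mul_left]
    apply List.sum_le_sum
    intro y _
    simp only [Function.comp_apply]
    have e1 : S.π (y.1 * g⁻¹) (S.π g y.2) = S.π y.1 y.2 := by
      have : S.π (y.1 * g⁻¹) (S.π g y.2) = (S.π (y.1 * g⁻¹) * S.π g) y.2 := rfl
      rw [this, ← map_mul]
      simp
    rw [e1, mul_inv_rev, inv_inv, ← mul_assoc]
    exact mul_le_mul_of_nonneg_right (S.w_mul _ _) (apply_nonneg p _)
  rw [h3] at h2
  have h5 : S.w g * cost S p s l ≤ S.w g * (avg S p s x + ε / S.w g) :=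
    mul_le_mul_of_nonneg_left h1.le hw.le
  have h6 : S.w g * (ε / S.w g) = ε := by field_simp
  linarith

/-- If `r` is a `w`-bounded seminorm with `r ≤ C p_s` then `r ≤ C C' avg`. -/
theorem le_avg (S : Setup G E) (p r : Seminorm ℂ E) (s : ℝ) {C C' : ℝ} (hC : 0 ≤ C)
    (h1 : ∀ g x, r (S.π g x) ≤ C * S.w g * r x) (h2 : ∀ x, r x ≤ C' * p (S.D s x)) (x : E) :
    r x ≤ C * C' * avg S p s x := by
  have key : ∀ l : List (G × E), r (l.map Prod.snd).sum ≤ C * C' * cost S p s l := by
    intro l
    induction l with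
    | nil => simp [cost]
    | cons z l ih =>
      have e1 : r z.2 ≤ C * C' * (S.w z.1⁻¹ * p (S.D s (S.π z.1 z.2))) := by
        have a1 : r z.2 ≤ C * S.w z.1⁻¹ * r (S.π z.1 z.2) := by
          have := h1 z.1⁻¹ (S.π z.1 z.2)
          have e2 : S.π z.1⁻¹ (S.π z.1 z.2) = z.2 := by
            have : S.π z.1⁻¹ (S.π z.1 z.2) = (S.π z.1⁻¹ * S.π z.1) z.2 := rfl
            rw [this, ← map_mul]
            simp
          rwa [e2] at this
        have a2 := h2 (S.π z.1 z.2)
        have a3 : 0 ≤ C * S.w z.1⁻¹ := mul_nonneg hC (S.w_pos _).le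
        calc r z.2 ≤ C * S.w z.1⁻¹ * r (S.π z.1 z.2) := a1
          _ ≤ C * S.w z.1⁻¹ * (C' * p (S.D s (S.π z.1 z.2))) := mul_le_mul_of_nonneg_left a2 a3
          _ = _ := by ring
      have e3 : cost S p s (z :: l) = S.w z.1⁻¹ * p (S.D s (S.π z.1 z.2)) + cost S p s l := by
        simp [cost]
      rw [List.map_cons, List.sum_cons, e3, mul_add]
      exact (map_add_le_add r _ _).trans (add_le_add e1 ih)
  rcases le_or_gt 0 (C * C') with h | h
  · rcases h.eq_or_lt with h0 | h0
    · obtain ⟨l, hl, _⟩ := exists_cost_lt S p s x (c := avg S p s x + 1) (by linarith)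
      have := key l
      rw [hl, ← h0] at this
      rw [← h0]
      linarith
    · apply le_of_forall_pos_le_add
      intro ε hε
      obtain ⟨l, hl, h3⟩ := exists_cost_lt S p s x (c := avg S p s x + ε / (C * C'))
        (by have : 0 < ε / (C * C') := by positivity
            linarith)
      have h4 := key l
      rw [hl] at h4
      have h5 : C * C' * cost S p s l ≤ C * C' * (avg S p s x + ε / (C * C')) :=
        mul_le_mul_of_nonneg_left h3.le h
      have h6 : C * C' * (ε / (C * C')) = ε := by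
        rw [mul_div_assoc', mul_div_cancel_left₀ _ h0.ne']
      linarith
  · -- `C * C' < 0`: then `C' < 0`, all values vanish
    have hC' : C' < 0 := by
      by_contra hn
      push Not at hn
      nlinarith
    have hz : ∀ y, r y = 0 ∧ p (S.D s y) = 0 := by
      intro y
      have a1 := h2 y
      have a2 := apply_nonneg r y
      have a3 := apply_nonneg p (S.D s y)
      constructor <;> nlinarith
    have ha : avg S p s x = 0 := by
      apply le_antisymm _ (avg_nonneg S p s x)
      refine (avg_le S p s x).trans ?_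
      rw [(hz x).2, mul_zero]
    rw [(hz x).1, ha, mul_zero]

theorem avg_mono (S : Setup G E) (p q : Seminorm ℂ E) (s t : ℝ) {C : ℝ} (hC : 0 ≤ C)
    (h : ∀ x, p (S.D s x) ≤ C * q (S.D t x)) (x : E) : avg S p s x ≤ C * avg S q t x := by
  have key : ∀ l : List (G × E), cost S p s l ≤ C * cost S q t l := by
    intro l
    unfold cost
    rw [← List.sum_map_mul_left]
    apply List.sum_le_sum
    intro z _
    have := h (S.π z.1 z.2)
    calc S.w z.1⁻¹ * p (S.D s (S.π z.1 z.2)) ≤ S.w z.1⁻¹ * (C * q (S.D t (S.π z.1 z.2))) :=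
          mul_le_mul_of_nonneg_left this (S.w_pos _).le
      _ = C * (S.w z.1⁻¹ * q (S.D t (S.π z.1 z.2))) := by ring
  apply le_of_forall_pos_le_add
  intro ε hε
  obtain ⟨l, hl, h3⟩ := exists_cost_lt S q t x (c := avg S q t x + ε / (C + 1))
    (by have : 0 < ε / (C + 1) := by positivity
        linarith)
  have h4 := avg_le_cost S p s l
  rw [hl] at h4
  have h5 : C * cost S q t l ≤ C * (avg S q t x + ε / (C + 1)) :=
    mul_le_mul_of_nonneg_left h3.le hC
  have h6 : C * (ε / (C + 1)) ≤ ε := by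
    rw [mul_div_assoc', div_le_iff₀ (by positivity)]
    nlinarith
  linarith [key l]

end Q4.SN
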