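import Pool.Agent.Q4.SN.Cas

/-!
# An eigenbasis of the space of `K`-finite vectors
-/

open Filter Topology Set
open scoped NNReal ENNReal

namespace Q4.SN

universe u v

variable {G : Type u} [Group G] [TopologicalSpace G]
variable {E : Type v} [AddCommGroup E] [Module ℂ E] [TopologicalSpace E]

/-- An eigenbasis of the space of `K`-finite vectors. -/
structure EBasis (S : Setup G E) where
  /-- index type -/
  I : Type v
  /-- basis -/
  b : Module.Basis I ℂ (kfin S.toRep)
  /-- eigenvalues -/
  a : I → ℝ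
  one_le : ∀ i, 1 ≤ a i
  cas : ∀ i, Cas S.toRep (b i : E) (((a i - 1 : ℝ) : ℂ) • (b i : E))
  D_basis : ∀ s i, S.D s (b i : E) = ((a i ^ (s / 2) : ℝ) : ℂ) • (b i : E)

/-- `K`-boundedness of a norm in `Norm(V, w)`. -/
theorem exists_kbd (S : Setup G E) (q : Seminorm ℂ E)
    (hq : ∃ C : ℝ, 0 < C ∧ ∀ g x, q (S.π g x) ≤ C * S.w g * q x) :
    ∃ B : ℝ, 1 ≤ B ∧ KBd S.toRep B q := by
  obtain ⟨C, hC, h⟩ := hq
  have hw : ∃ c : ℝ, ∀ g ∈ (S.K : Set G), S.w g ≤ c := by
    apply S.isCompact_K.induction_on (p := fun T => ∃ c : ℝ, ∀ g ∈ T, S.w g ≤ c)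
    · exact ⟨0, by simp⟩
    · rintro s t hst ⟨c, hc⟩
      exact ⟨c, fun g hg => hc g (hst hg)⟩
    · rintro s t ⟨c, hc⟩ ⟨c', hc'⟩
      refine ⟨max c c', ?_⟩
      rintro g (hg | hg)
      · exact (hc g hg).trans (le_max_left _ _)
      · exact (hc' g hg).trans (le_max_right _ _)
    · intro g _
      obtain ⟨c, hc⟩ := S.w_loc g
      exact ⟨{h | S.w h ≤ c}, mem_nhdsWithin_of_mem_nhds hc, c, fun h hh => hh⟩
  obtain ⟨c, hc⟩ := hw
  refine ⟨max 1 (C * c), le_max_left _ _, ?_⟩
  intro k x
  calc q (S.π k x) ≤ C * S.w k * q x := h k x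
    _ ≤ max 1 (C * c) * q x := by
        apply mul_le_mul_of_nonneg_right _ (apply_nonneg q x)
        exact (mul_le_mul_of_nonneg_left (hc k k.2) hC.le).trans (le_max_right _ _)

theorem exists_ebasis [IsTopologicalAddGroup E] [ContinuousSMul ℂ E] (S : Setup G E)
    (p : NormW S) : Nonempty (EBasis S) := by
  classical
  set sp : Set (kfin S.toRep) := {v | ∃ T : KType S.toRep, (v : E) ∈ isotypic S.toRep T} with hsp
  have hspan : ⊤ ≤ Submodule.span ℂ sp := by
    intro v _
    have hv : (v : E) ∈ Submodule.map (kfin S.toRep).subtype (Submodule.span ℂ sp) := by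
      have : kfin S.toRep ≤ Submodule.map (kfin S.toRep).subtype (Submodule.span ℂ sp) := by
        unfold kfin
        apply iSup_le
        intro T v hv
        have hv' : v ∈ kfin S.toRep := by
          unfold kfin
          exact Submodule.mem_iSup_of_mem T hv
        exact ⟨⟨v, hv'⟩, Submodule.subset_span ⟨T, hv⟩, rfl⟩
      exact this v.2
    obtain ⟨v', hv', e⟩ := hv
    have : v' = v := Subtype.ext e
    rwa [← this]
  let b := Module.Basis.ofSpan hspan
  have hb : ∀ i, ∃ T : KType S.toRep, (b i : E) ∈ isotypic S.toRep T := by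
    intro i
    have := Module.Basis.ofSpan_subset hspan (Set.mem_range_self i)
    exact this
  choose T hT using hb
  obtain ⟨B, hB, hK⟩ := exists_kbd S p.p p.bound
  have hc : ∀ i, 0 ≤ (T i).c := by
    intro i
    by_contra hneg
    push Not at hneg
    have h1 := resolvent hK p.continuous_p (cas_isotypic S.toRep (T i) (hT i))
      (κ := -(T i).c) (by linarith)
    have h2 : (((-(T i).c : ℝ) : ℂ)) • (b i : E) + ((T i).c : ℂ) • (b i : E) = 0 := by
      rw [← add_smul]
      push_cast
      simp
    rw [h2, map_zero, mul_zero] at h1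
    have h3 : p.p (b i : E) = 0 := by
      have := apply_nonneg p.p (b i : E)
      nlinarith
    have h4 := p.eq_zero _ h3
    have h5 : b i = 0 := Subtype.ext h4
    exact b.ne_zero i h5
  refine ⟨⟨_, b, fun i => 1 + (T i).c, fun i => by linarith [hc i], ?_, ?_⟩⟩
  · intro i
    have := cas_isotypic S.toRep (T i) (hT i)
    simpa using this
  · intro s i
    exact S.D_apply s (T i) _ (hT i)

section mult

variable [IsTopologicalAddGroup E] [ContinuousSMul ℂ E] {S : Setup G E} (e : EBasis S)

omit [IsTopologicalAddGroup E] [ContinuousSMul ℂ E] in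
theorem D_eq_mult (s : ℝ) (x : kfin S.toRep) :
    S.D s (x : E) = (mult e.b e.a (fun t => t ^ (s / 2)) x : kfin S.toRep) := by
  have : ((S.D s : E →L[ℂ] E) : E →ₗ[ℂ] E).comp (kfin S.toRep).subtype =
      (kfin S.toRep).subtype.comp (mult e.b e.a (fun t => t ^ (s / 2))) := by
    apply e.b.ext
    intro i
    rw [LinearMap.comp_apply, LinearMap.comp_apply, mult_basis]
    simp only [Submodule.subtype_apply, map_smul]
    exact e.D_basis s i
  exact congrArg (fun L : kfin S.toRep →ₗ[ℂ] E => L x) this

theorem cas_mult (x : kfin S.toRep) :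
    Cas S.toRep (x : E) (mult e.b e.a (fun t => t - 1) x : kfin S.toRep) := by
  have hx : x ∈ Submodule.span ℂ (Set.range e.b) := by
    rw [e.b.span_eq]
    trivial
  induction hx using Submodule.span_induction with
  | mem x hx =>
    obtain ⟨i, rfl⟩ := hx
    rw [mult_basis]
    exact e.cas i
  | zero => simpa using Cas.zero
  | add x y _ _ hx hy =>
    rw [map_add]
    exact hx.add hy
  | smul z x _ hx =>
    rw [map_smul]
    exact hx.smul z

omit [IsTopologicalAddGroup E] [ContinuousSMul ℂ E] in
/-- The restriction of a seminorm to the `K`-finite vectors. -/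
noncomputable def rs (S : Setup G E) (q : Seminorm ℂ E) : Seminorm ℂ (kfin S.toRep) :=
  q.comp (kfin S.toRep).subtype

omit [IsTopologicalAddGroup E] [ContinuousSMul ℂ E] in
theorem rs_apply (q : Seminorm ℂ E) (x : kfin S.toRep) : rs S q x = q (x : E) := rfl

theorem res_rs {q : Seminorm ℂ E} (hq : Continuous q) {B : ℝ} (hK : KBd S.toRep B q) :
    Res e.b e.a B (rs S q) := by
  intro ρ hρ x
  have h := resolvent hK hq (cas_mult e x) (κ := 1 + ρ) (by linarith)
  have e1 : ((1 + ρ : ℝ) : ℂ) • (x : E) + (mult e.b e.a (fun t => t - 1) x : kfin S.toRep) =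
      (mult e.b e.a (fun t => t + ρ) x : kfin S.toRep) := by
    have : mult e.b e.a (fun t => t + ρ) x =
        mult e.b e.a (fun _ => 1 + ρ) x + mult e.b e.a (fun t => t - 1) x := by
      rw [← mult_add]
      apply mult_congr
      intro i
      ring
    rw [this, mult_const]
    rfl
  rw [e1] at h
  exact h

end mult

/-- An inequality between continuous functions on `V` extends to `E`. -/
theorem le_of_kfin (S : Setup G E) {f g : E → ℝ} (hf : Continuous f) (hg : Continuous g)
    (h : ∀ x ∈ kfin S.toRep, f x ≤ g x) (x : E) : f x ≤ g x := by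
  have hc : IsClosed {x | f x ≤ g x} := isClosed_le hf hg
  have := S.dense_kfin.closure_eq ▸ hc.closure_subset_iff.mpr h
  exact this (mem_univ x)

end Q4.SN
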