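import Pool.Agent.Q4.SN.Defs

/-!
# The Casimir operator on isotypic vectors and the resolvent inequality
-/

open Filter Topology Set
open scoped NNReal ENNReal

namespace Q4.SN

variable {G : Type*} [Group G] [TopologicalSpace G]
variable {E : Type*} [AddCommGroup E] [Module ℂ E] [TopologicalSpace E]

/-- The second difference quotient. -/
noncomputable def sec (R : Rep G E) (t : ℝ) (v : E) : E :=
  ((t ^ 2)⁻¹ : ℝ) • ∑ i, ((2 : ℝ) • v - R.π (R.X i t) v - R.π (R.X i (-t)) v)

/-- `Cv = y`. -/
def Cas (R : Rep G E) (v y : E) : Prop := Tendsto (fun t : ℝ => sec R t v) (𝓝[≠] 0) (𝓝 y)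

theorem sec_add (R : Rep G E) (t : ℝ) (u v : E) : sec R t (u + v) = sec R t u + sec R t v := by
  unfold sec
  rw [← smul_add, ← Finset.sum_add_distrib]
  congr 1
  apply Finset.sum_congr rfl
  intro i _
  simp only [map_add, smul_add]
  abel

theorem sec_smul (R : Rep G E) (t : ℝ) (z : ℂ) (v : E) : sec R t (z • v) = z • sec R t v := by
  unfold sec
  rw [smul_comm z ((t ^ 2)⁻¹ : ℝ), Finset.smul_sum (r := z)]
  congr 1
  apply Finset.sum_congr rfl
  intro i _
  rw [smul_sub, smul_sub, map_smul, map_smul, smul_comm z (2 : ℝ)]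

theorem Cas.add [IsTopologicalAddGroup E] {R : Rep G E} {u v x y : E} (h : Cas R u x)
    (h' : Cas R v y) : Cas R (u + v) (x + y) := by
  have := Filter.Tendsto.add h h'
  unfold Cas
  simpa only [sec_add] using this

theorem Cas.smul [ContinuousSMul ℂ E] {R : Rep G E} {v y : E} (z : ℂ) (h : Cas R v y) :
    Cas R (z • v) (z • y) := by
  have := Filter.Tendsto.const_smul h z
  unfold Cas
  simpa only [sec_smul] using this

theorem Cas.zero {R : Rep G E} : Cas R (0 : E) 0 := by
  unfold Cas
  have : ∀ t : ℝ, sec R t (0 : E) = 0 := by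
    intro t
    have := sec_smul R t (0 : ℂ) (0 : E)
    simpa using this
  simp only [this]
  exact tendsto_const_nhds

theorem cas_isotypic [IsTopologicalAddGroup E] [ContinuousSMul ℂ E] (R : Rep G E) (T : KType R)
    {v : E} (hv : v ∈ isotypic R T) : Cas R v ((T.c : ℂ) • v) := by
  unfold isotypic at hv
  induction hv using Submodule.span_induction with
  | mem v hv =>
    obtain ⟨L, x, hL, rfl⟩ := hv
    have hc : Continuous L := LinearMap.continuous_of_finiteDimensional L
    have h1 := (hc.tendsto (T.c • x)).comp (T.casimir x)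
    have h2 : L (T.c • x) = (T.c : ℂ) • L x := by
      rw [← map_smul]
      rfl
    rw [h2] at h1
    unfold Cas
    refine h1.congr fun t => ?_
    simp only [Function.comp_apply]
    unfold sec
    have h3 : ∀ (r : ℝ) (y : Fin T.d → ℂ), L (r • y) = r • L y := by
      intro r y
      have : r • y = (r : ℂ) • y := rfl
      rw [this, map_smul]
      rfl
    rw [h3, map_sum]
    congr 1
    apply Finset.sum_congr rfl
    intro i _
    rw [map_sub, map_sub, h3, hL, hL]
  | zero => simpa using Cas.zero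
  | add x y _ _ hx hy =>
    rw [smul_add]
    exact hx.add hy
  | smul z x _ hx =>
    rw [smul_comm]
    exact hx.smul z

/-- A seminorm which is `K`-bounded with constant `B`. -/
def KBd (R : Rep G E) (B : ℝ) (q : Seminorm ℂ E) : Prop :=
  ∀ k : R.K, ∀ x, q (R.π k x) ≤ B * q x

/-- The supremum over `K`. -/
noncomputable def supK (R : Rep G E) (q : Seminorm ℂ E) : Seminorm ℂ E :=
  ⨆ k : R.K, q.comp ((R.π k : E →L[ℂ] E) : E →ₗ[ℂ] E)

theorem bddAbove_supK {R : Rep G E} {B : ℝ} {q : Seminorm ℂ E} (h : KBd R B q) :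
    BddAbove (Set.range fun k : R.K => q.comp ((R.π k : E →L[ℂ] E) : E →ₗ[ℂ] E)) := by
  rw [Seminorm.bddAbove_range_iff]
  intro x
  refine ⟨B * q x, ?_⟩
  rintro _ ⟨k, rfl⟩
  exact h k x

theorem supK_apply {R : Rep G E} {B : ℝ} {q : Seminorm ℂ E} (h : KBd R B q) (x : E) :
    supK R q x = ⨆ k : R.K, q (R.π k x) := by
  unfold supK
  rw [Seminorm.iSup_apply (bddAbove_supK h)]
  rfl

theorem supK_le {R : Rep G E} {B : ℝ} {q : Seminorm ℂ E} (h : KBd R B q) (x : E) :
    supK R q x ≤ B * q x := by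
  rw [supK_apply h]
  exact ciSup_le fun k => h k x

theorem bdd_range {R : Rep G E} {B : ℝ} {q : Seminorm ℂ E} (h : KBd R B q) (x : E) :
    BddAbove (Set.range fun k : R.K => q (R.π k x)) := by
  refine ⟨B * q x, ?_⟩
  rintro _ ⟨k, rfl⟩
  exact h k x

theorem le_supK {R : Rep G E} {B : ℝ} {q : Seminorm ℂ E} (h : KBd R B q) (x : E) :
    q x ≤ supK R q x := by
  rw [supK_apply h]
  have := le_ciSup (bdd_range h x) 1
  simpa using this

theorem supK_inv {R : Rep G E} {B : ℝ} {q : Seminorm ℂ E} (h : KBd R B q) (k : R.K) (x : E) :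
    supK R q (R.π k x) ≤ supK R q x := by
  rw [supK_apply h, supK_apply h]
  apply ciSup_le
  intro k'
  have := le_ciSup (bdd_range h x) (k' * k)
  refine le_trans (le_of_eq ?_) this
  simp only [Subgroup.coe_mul, map_mul]
  rfl

/-- The resolvent inequality: `κ q(v) ≤ B q(κ v + C v)`. -/
theorem resolvent [IsTopologicalAddGroup E] [ContinuousSMul ℂ E] {R : Rep G E} {B : ℝ}
    {q : Seminorm ℂ E} (h : KBd R B q) (hq : Continuous q) {v y : E} (hv : Cas R v y) {κ : ℝ}
    (hκ : 0 ≤ κ) : κ * q v ≤ B * q ((κ : ℂ) • v + y) := by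
  have hB : Continuous (supK R q) := by
    rcases le_or_gt 0 B with hB | hB
    · have e0 : ∀ x, (B.toNNReal • q) x = B * q x := by
        intro x
        rw [_root_.smul_apply, NNReal.smul_def, Real.coe_toNNReal B hB, smul_eq_mul]
      have hle : supK R q ≤ B.toNNReal • q := by
        intro x
        rw [e0]
        exact supK_le h x
      have hc : Continuous (B.toNNReal • q : Seminorm ℂ E) := by
        have : (⇑(B.toNNReal • q : Seminorm ℂ E)) = fun x => B * q x := by
          ext x
          exact e0 x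
        rw [this]
        exact continuous_const.mul hq
      exact Seminorm.continuous_of_le hc hle
    · have hz : ∀ x, supK R q x = 0 := by
        intro x
        have h1 := supK_le h x
        have h2 := apply_nonneg (supK R q) x
        have h3 := apply_nonneg q x
        nlinarith
      have : (supK R q : E → ℝ) = fun _ => 0 := by
        ext x
        exact hz x
      rw [this]
      exact continuous_const
  set Q := supK R q with hQ
  have key : ∀ t : ℝ, t ≠ 0 → κ * Q v ≤ Q ((κ : ℂ) • v + sec R t v) := by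
    intro t ht
    have ht2 : 0 < (t ^ 2)⁻¹ := by positivity
    have e : ((κ + 2 * R.n * (t ^ 2)⁻¹ : ℝ) : ℂ) • v = ((κ : ℂ) • v + sec R t v) +
        (((t ^ 2)⁻¹ : ℝ) : ℂ) • ∑ i, (R.π (R.X i t) v + R.π (R.X i (-t)) v) := by
      have e1 : sec R t v = (((t ^ 2)⁻¹ : ℝ) : ℂ) • ∑ i : Fin R.n,
          ((2 : ℂ) • v - (R.π (R.X i t) v + R.π (R.X i (-t)) v)) := by
        unfold sec
        have : ∀ (r : ℝ) (z : E), r • z = (r : ℂ) • z := fun r z => rfl
        rw [this]
        congr 1
        apply Finset.sum_congr rfl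
        intro i _
        rw [this]
        push_cast
        abel
      rw [e1, Finset.sum_sub_distrib, smul_sub, Finset.sum_const, Finset.card_univ,
        Fintype.card_fin]
      rw [← Nat.cast_smul_eq_nsmul ℂ, smul_smul, smul_smul]
      have : ((κ + 2 * R.n * (t ^ 2)⁻¹ : ℝ) : ℂ) = (κ : ℂ) +
          (((t ^ 2)⁻¹ : ℝ) : ℂ) * ((R.n : ℂ) * 2) := by
        push_cast
        ring
      rw [this, add_smul, ← mul_assoc]
      abel
    have h1 : Q (((κ + 2 * R.n * (t ^ 2)⁻¹ : ℝ) : ℂ) • v) =
        (κ + 2 * R.n * (t ^ 2)⁻¹) * Q v := by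
      rw [map_smul_eq_mul, Complex.norm_real, Real.norm_of_nonneg]
      positivity
    have h2 : Q ((((t ^ 2)⁻¹ : ℝ) : ℂ) • ∑ i, (R.π (R.X i t) v + R.π (R.X i (-t)) v)) ≤
        (t ^ 2)⁻¹ * (2 * R.n * Q v) := by
      rw [map_smul_eq_mul, Complex.norm_real, Real.norm_of_nonneg ht2.le]
      apply mul_le_mul_of_nonneg_left _ ht2.le
      refine (Finset.le_sum_of_subadditive Q (map_zero Q).le (map_add_le_add Q) _ _).trans ?_
      have : ∀ i ∈ Finset.univ, Q (R.π (R.X i t) v + R.π (R.X i (-t)) v) ≤ 2 * Q v := by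
        intro i _
        refine (map_add_le_add Q _ _).trans ?_
        have a1 := supK_inv h (R.X i t) v
        have a2 := supK_inv h (R.X i (-t)) v
        linarith
      refine (Finset.sum_le_sum this).trans ?_
      rw [Finset.sum_const, Finset.card_univ, Fintype.card_fin, nsmul_eq_mul]
      linarith
    have h3 := map_add_le_add Q ((κ : ℂ) • v + sec R t v)
      ((((t ^ 2)⁻¹ : ℝ) : ℂ) • ∑ i, (R.π (R.X i t) v + R.π (R.X i (-t)) v))
    rw [← e, h1] at h3
    nlinarith
  have lim : Tendsto (fun t : ℝ => Q ((κ : ℂ) • v + sec R t v)) (𝓝[≠] 0)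
      (𝓝 (Q ((κ : ℂ) • v + y))) := by
    apply (hB.tendsto _).comp
    exact Filter.Tendsto.add tendsto_const_nhds hv
  have hfin : κ * Q v ≤ Q ((κ : ℂ) • v + y) := by
    apply ge_of_tendsto lim
    filter_upwards [self_mem_nhdsWithin] with t ht
    exact key t ht
  calc κ * q v ≤ κ * Q v := mul_le_mul_of_nonneg_left (le_supK h v) hκ
    _ ≤ Q ((κ : ℂ) • v + y) := hfin
    _ ≤ B * q ((κ : ℂ) • v + y) := supK_le h _

end Q4.SN
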