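import Pool.Agent.Q4.SN.Stm

/-!
# Norms on a globalization, Sobolev operators, averaging
-/

open Filter Topology Set
open scoped NNReal ENNReal

namespace Q4.SN

/-- A group `G`, a compact subgroup `K` with finitely many one-parameter subgroups `X i` of `K`
(for a real reductive group: an orthonormal basis of the Lie algebra of `K`), and a continuous
linear representation of `G` on `E` (the space `V^∞`). -/
structure Rep (G : Type*) [Group G] [TopologicalSpace G]
    (E : Type*) [AddCommGroup E] [Module ℂ E] [TopologicalSpace E] where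
  /-- the compact subgroup -/
  K : Subgroup G
  isCompact_K : IsCompact (K : Set G)
  /-- number of one-parameter subgroups -/
  n : ℕ
  /-- the one-parameter subgroups -/
  X : Fin n → ℝ → K
  continuous_X : ∀ i, Continuous (X i)
  X_add : ∀ i s t, X i (s + t) = X i s * X i t
  /-- the representation -/
  π : G →* (E →L[ℂ] E)
  continuous_π : Continuous (fun z : G × E => π z.1 z.2)

section rep

variable {G : Type*} [Group G] [TopologicalSpace G]
variable {E : Type*} [AddCommGroup E] [Module ℂ E] [TopologicalSpace E]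

/-- A `K`-type: an irreducible continuous representation `τ` of `K` on `ℂ^d` together with the
scalar `c` by which the Casimir operator `- ∑ X i ^ 2` acts on it (written with symmetric second
differences). -/
structure KType (R : Rep G E) where
  /-- the dimension -/
  d : ℕ
  /-- the representation -/
  τ : R.K →* Matrix (Fin d) (Fin d) ℂ
  continuous_τ : Continuous τ
  irreducible : ∀ U : Submodule ℂ (Fin d → ℂ), (∀ k, ∀ x ∈ U, (τ k).mulVec x ∈ U) → U = ⊥ ∨ U = ⊤
  /-- the Casimir scalar -/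
  c : ℝ
  casimir : ∀ x : Fin d → ℂ, Tendsto (fun t : ℝ => ((t ^ 2)⁻¹ : ℝ) • ∑ i,
    ((2 : ℝ) • x - (τ (R.X i t)).mulVec x - (τ (R.X i (-t))).mulVec x)) (𝓝[≠] 0) (𝓝 (c • x))

/-- The `τ`-isotypic part `E[τ]`: the span of the images of the `K`-homomorphisms `τ → E`. -/
def isotypic (R : Rep G E) (T : KType R) : Submodule ℂ E :=
  Submodule.span ℂ {v | ∃ (L : (Fin T.d → ℂ) →ₗ[ℂ] E) (x : Fin T.d → ℂ),
    (∀ (k : R.K) (y : Fin T.d → ℂ), L ((T.τ k).mulVec y) = R.π k (L y)) ∧ v = L x}

/-- The sum `V` of all isotypic parts (the `K`-finite vectors). -/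
def kfin (R : Rep G E) : Submodule ℂ E := ⨆ T : KType R, isotypic R T

end rep

/-- The data of the problem: a representation on `E` in which the `K`-finite vectors are dense,
Sobolev operators `D s`, and a weight `w`. -/
structure Setup (G : Type*) [Group G] [TopologicalSpace G]
    (E : Type*) [AddCommGroup E] [Module ℂ E] [TopologicalSpace E] extends Rep G E where
  dense_kfin : Dense (kfin toRep : Set E)
  /-- the operators `D_s` -/
  D : ℝ → E →L[ℂ] E
  D_apply : ∀ (s : ℝ) (T : KType toRep), ∀ v ∈ isotypic toRep T,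
    D s v = ((1 + T.c) ^ (s / 2) : ℝ) • v
  /-- the weight -/
  w : G → ℝ
  w_pos : ∀ g, 0 < w g
  w_mul : ∀ g h, w (g * h) ≤ w g * w h
  w_loc : ∀ g, ∃ c : ℝ, ∀ᶠ h in 𝓝 g, w h ≤ c

variable {G : Type*} [Group G] [TopologicalSpace G]
variable {E : Type*} [AddCommGroup E] [Module ℂ E] [TopologicalSpace E]

/-- The set `Norm(V, w)`: continuous norms `p` on `E` with `p (g x) ≤ C w(g) p(x)`. -/
structure NormW (S : Setup G E) where
  /-- the norm -/
  p : Seminorm ℂ E
  continuous_p : Continuous p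
  eq_zero : ∀ x, p x = 0 → x = 0
  bound : ∃ C : ℝ, 0 < C ∧ ∀ g x, p (S.π g x) ≤ C * S.w g * p x

/-- `p ≲ q_s`: there is a constant with `p v ≤ C q (D_s v)` for all `v` in `V`. -/
def LeSob (S : Setup G E) (p q : Seminorm ℂ E) (s : ℝ) : Prop :=
  ∃ C : ℝ, 0 < C ∧ ∀ v ∈ kfin S.toRep, p v ≤ C * q (S.D s v)

/-- `d_→(p, q)`, the infimum of all `s ≥ 0` with `p ≲ q_s`. -/
noncomputable def dArrow (S : Setup G E) (p q : Seminorm ℂ E) : ℝ≥0∞ :=
  ⨅ (s : ℝ≥0) (_ : LeSob S p q s), (s : ℝ≥0∞)

/-- The cost `∑ w(g_i⁻¹) p_s(g_i x_i)` of a finite family of pairs `(g_i, x_i)`. -/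
noncomputable def cost (S : Setup G E) (p : Seminorm ℂ E) (s : ℝ) (l : List (G × E)) : ℝ :=
  (l.map (fun z => S.w z.1⁻¹ * p (S.D s (S.π z.1 z.2)))).sum

/-- The averaged norm `p_s^G (x)`: the infimum of `∑ w(g_i⁻¹) p_s(g_i x_i)` over all finite
decompositions `x = ∑ x_i` and all `g_i`. -/
noncomputable def avg (S : Setup G E) (p : Seminorm ℂ E) (s : ℝ) (x : E) : ℝ :=
  sInf {r : ℝ | ∃ l : List (G × E), (l.map Prod.snd).sum = x ∧ r = cost S p s l}

end Q4.SN
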