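import Pool.Agent.Q4.SN.Met
import Pool.Agent.Q144.SN.SC
import Pool.Agent.Q144.SN.Int
import Pool.Agent.Q144.SN.Intp
import Pool.Agent.Q144.SN.Neg
import Pool.Agent.Q298.SN.Fr
import Pool.Agent.Q298.SN.Kup
import Pool.Agent.Q298.SN.Klow

/-!
# Final assembly
-/

open Filter Topology Set
open scoped NNReal ENNReal

namespace Q4.SN

universe u v

theorem fin0 (hN : SNEG.{v, v}) (hKU : SKUP.{v, v}) (hKL : SKLOW.{v, v})
    {G : Type u} [Group G] [TopologicalSpace G] {E : Type v} [AddCommGroup E]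
    [Module ℂ E] [TopologicalSpace E] [IsTopologicalAddGroup E] [ContinuousSMul ℂ E]
    (S : Setup G E) :
    ∃ (Φ : ℝ≥0 × NormW S → NormW S)
      (Φ' : ℝ≥0 × SeparationQuotient (NormW S) → SeparationQuotient (NormW S)),
      (∀ s p x, (Φ (s, p)).p x = avg S p.p s x) ∧
      (∀ s p, ∀ x ∈ kfin S.toRep, (Φ (s, p)).p x = sInf {r : ℝ | ∃ l : List (G × E),
        (∀ z ∈ l, z.2 ∈ kfin S.toRep) ∧ (l.map Prod.snd).sum = x ∧ r = cost S p.p s l}) ∧
      (∀ s t p q, edist (Φ (s, p)) (Φ (t, q)) ≤ edist s t + edist p q) ∧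
      Continuous Φ ∧
      (∀ s p, Φ' (s, SeparationQuotient.mk p) = SeparationQuotient.mk (Φ (s, p))) ∧
      Continuous Φ' := by
  have key := edist_avg hN hKU hKL S
  have hlip : ∀ (p q : NormW S) (s : ℝ≥0), Inseparable p q →
      SeparationQuotient.mk (avgN hN S s p) = SeparationQuotient.mk (avgN hN S s q) := by
    intro p q s h
    rw [SeparationQuotient.mk_eq_mk, EMetric.inseparable_iff]
    have h1 := key p q s s
    rw [EMetric.inseparable_iff] at h
    rw [h, edist_self, add_zero] at h1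
    exact le_antisymm h1 bot_le
  set Φ : ℝ≥0 × NormW S → NormW S := fun z => avgN hN S z.1 z.2 with hΦ
  set Φ' : ℝ≥0 × SeparationQuotient (NormW S) → SeparationQuotient (NormW S) := fun z =>
    SeparationQuotient.lift (fun p => SeparationQuotient.mk (avgN hN S z.1 p))
      (fun p q h => hlip p q z.1 h) z.2 with hΦ'
  have hΦ'mk : ∀ s p, Φ' (s, SeparationQuotient.mk p) = SeparationQuotient.mk (Φ (s, p)) :=
    fun s p => rfl
  have hc : ∀ {α : Type v} [PseudoEMetricSpace α] (F : ℝ≥0 × α → α),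
      (∀ s t p q, edist (F (s, p)) (F (t, q)) ≤ edist s t + edist p q) → Continuous F := by
    intro α _ F hF
    have : LipschitzWith 2 F := by
      rintro ⟨s, p⟩ ⟨t, q⟩
      refine (hF s t p q).trans ?_
      rw [Prod.edist_eq]
      have h1 : edist s t ≤ max (edist s t) (edist p q) := le_max_left _ _
      have h2 : edist p q ≤ max (edist s t) (edist p q) := le_max_right _ _
      calc edist s t + edist p q ≤ max (edist s t) (edist p q) + max (edist s t) (edist p q) :=
            add_le_add h1 h2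
        _ = 2 * max (edist s t) (edist p q) := (two_mul _).symm
        _ = _ := by simp
    exact this.continuous
  refine ⟨Φ, Φ', fun s p x => rfl, fun s p x hx => avg_kfin S p s hx,
    fun s t p q => key p q s t, hc Φ fun s t p q => key p q s t, hΦ'mk, ?_⟩
  apply hc Φ'
  intro s t p q
  obtain ⟨p, rfl⟩ := SeparationQuotient.surjective_mk p
  obtain ⟨q, rfl⟩ := SeparationQuotient.surjective_mk q
  rw [hΦ'mk, hΦ'mk, SeparationQuotient.edist_mk, SeparationQuotient.edist_mk]
  exact key p q s t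

theorem hNEG : SNEG.{v, v} := Q144.SN.tNeg Q144.SN.tSC Q144.SN.tInt Q144.SN.tIntp

theorem hFR : SFR.{v, v} := Q298.SN.tFr Q144.SN.tSC Q144.SN.tInt Q144.SN.tIntp

theorem hKUP : SKUP.{v, v} := Q298.SN.tKup hFR Q144.SN.tIntp

theorem hKLOW : SKLOW.{v, v} :=
  Q298.SN.tKlow Q144.SN.tSC Q144.SN.tInt Q144.SN.tIntp hFR

theorem fin {G : Type u} [Group G] [TopologicalSpace G] {E : Type v} [AddCommGroup E]
    [Module ℂ E] [TopologicalSpace E] [IsTopologicalAddGroup E] [ContinuousSMul ℂ E]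
    (S : Setup G E) :
    ∃ (Φ : ℝ≥0 × NormW S → NormW S)
      (Φ' : ℝ≥0 × SeparationQuotient (NormW S) → SeparationQuotient (NormW S)),
      (∀ s p x, (Φ (s, p)).p x = avg S p.p s x) ∧
      (∀ s p, ∀ x ∈ kfin S.toRep, (Φ (s, p)).p x = sInf {r : ℝ | ∃ l : List (G × E),
        (∀ z ∈ l, z.2 ∈ kfin S.toRep) ∧ (l.map Prod.snd).sum = x ∧ r = cost S p.p s l}) ∧
      (∀ s t p q, edist (Φ (s, p)) (Φ (t, q)) ≤ edist s t + edist p q) ∧
      Continuous Φ ∧
      (∀ s p, Φ' (s, SeparationQuotient.mk p) = SeparationQuotient.mk (Φ (s, p))) ∧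
      Continuous Φ' :=
  fin0 hNEG hKUP hKLOW S

end Q4.SN
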