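import Pool.Agent.Q4.SN.Avg

/-!
# The main inequalities
-/

open Filter Topology Set
open scoped NNReal ENNReal

namespace Q4.SN

universe u v

variable {G : Type u} [Group G] [TopologicalSpace G]
variable {E : Type v} [AddCommGroup E] [Module ℂ E] [TopologicalSpace E]

/-- `p ∘ D_s` is continuous. -/
theorem continuous_sob (S : Setup G E) {p : Seminorm ℂ E} (hp : Continuous p) (s : ℝ) :
    Continuous fun x => p (S.D s x) := hp.comp (S.D s).continuous

theorem continuous_avgS [IsTopologicalAddGroup E] [ContinuousSMul ℂ E] (S : Setup G E)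
    {p : Seminorm ℂ E} (hp : Continuous p) (s : ℝ) :
    Continuous (avgS S p s) := by
  have hle : avgS S p s ≤ (S.w 1).toNNReal • (p.comp ((S.D s : E →L[ℂ] E) : E →ₗ[ℂ] E)) := by
    intro x
    rw [_root_.smul_apply, NNReal.smul_def, Real.coe_toNNReal _ (S.w_pos 1).le, smul_eq_mul]
    exact avg_le S p s x
  have hc : Continuous ((S.w 1).toNNReal • (p.comp ((S.D s : E →L[ℂ] E) : E →ₗ[ℂ] E)) :
      Seminorm ℂ E) := by
    have : (⇑((S.w 1).toNNReal • (p.comp ((S.D s : E →L[ℂ] E) : E →ₗ[ℂ] E)) :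
        Seminorm ℂ E)) = fun x => S.w 1 * p (S.D s x) := by
      ext x
      rw [_root_.smul_apply, NNReal.smul_def, Real.coe_toNNReal _ (S.w_pos 1).le, smul_eq_mul]
      rfl
    rw [this]
    exact continuous_const.mul (continuous_sob S hp s)
  exact Seminorm.continuous_of_le hc hle

theorem D_mem (S : Setup G E) (e : EBasis S) (s : ℝ) {x : E} (hx : x ∈ kfin S.toRep) :
    S.D s x ∈ kfin S.toRep := by
  rw [D_eq_mult e s ⟨x, hx⟩]
  exact Subtype.property _

theorem D_D (S : Setup G E) (e : EBasis S) (s t : ℝ) {x : E} (hx : x ∈ kfin S.toRep) :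
    S.D s (S.D t x) = S.D (s + t) x := by
  rw [D_eq_mult e t ⟨x, hx⟩, D_eq_mult e s, D_eq_mult e (s + t) ⟨x, hx⟩, mult_mult]
  congr 1
  apply mult_congr
  intro i
  rw [← Real.rpow_add (by linarith [e.one_le i])]
  congr 1
  ring

theorem D_zero (S : Setup G E) (e : EBasis S) {x : E} (hx : x ∈ kfin S.toRep) :
    S.D 0 x = x := by
  rw [D_eq_mult e 0 ⟨x, hx⟩]
  have : mult e.b e.a (fun t => t ^ ((0 : ℝ) / 2)) ⟨x, hx⟩ = ⟨x, hx⟩ := by
    rw [mult_congr e.b e.a (g := fun _ => 1) (by intro i; simp), mult_const]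
    simp
  rw [this]

/-- Sobolev norms increase with the index. -/
theorem sob_mono [IsTopologicalAddGroup E] [ContinuousSMul ℂ E] (hN : SNEG.{v, v})
    (S : Setup G E) (e : EBasis S) {p : Seminorm ℂ E} (hp : Continuous p) {B : ℝ} (hB : 1 ≤ B)
    (hK : KBd S.toRep B p) {s t : ℝ} (hst : s ≤ t) :
    ∃ C : ℝ, 0 ≤ C ∧ ∀ x, p (S.D s x) ≤ C * p (S.D t x) := by
  obtain ⟨C, hC, h⟩ := hN e.b e.a (rs S p) B e.one_le hB (res_rs e hp hK) ((t - s) / 2)
    (by linarith)
  refine ⟨C, hC, ?_⟩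
  apply le_of_kfin S (continuous_sob S hp s) (continuous_const.mul (continuous_sob S hp t))
  intro x hx
  have h1 := h (mult e.b e.a (fun r => r ^ (t / 2)) ⟨x, hx⟩)
  rw [mult_mult] at h1
  have h2 : mult e.b e.a (fun r => r ^ (-((t - s) / 2)) * r ^ (t / 2)) ⟨x, hx⟩ =
      mult e.b e.a (fun r => r ^ (s / 2)) ⟨x, hx⟩ := by
    apply mult_congr
    intro i
    rw [← Real.rpow_add (by linarith [e.one_le i])]
    congr 1
    ring
  rw [h2, rs_apply, rs_apply, ← D_eq_mult e s ⟨x, hx⟩, ← D_eq_mult e t ⟨x, hx⟩] at h1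
  exact h1

/-- The main estimate: `p_u^G ≲ (p_s^G)_{u - s + ε}` for `0 ≤ s < u`. -/
theorem main_est [IsTopologicalAddGroup E] [ContinuousSMul ℂ E] (hKU : SKUP.{v, v})
    (hKL : SKLOW.{v, v}) (S : Setup G E) (e : EBasis S) (p : NormW S) {s u ε : ℝ} (hs : 0 ≤ s)
    (hsu : s < u) (hε : 0 < ε) :
    ∃ C : ℝ, 0 ≤ C ∧ ∀ x ∈ kfin S.toRep, avg S p.p u x ≤ C * avg S p.p s (S.D (u - s + ε) x) := by
  obtain ⟨Cp, hCp, hp⟩ := p.bound
  set q := avgS S p.p u with hq
  have hqc : Continuous q := continuous_avgS S p.continuous_p u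
  have hpc : Continuous p.p := p.continuous_p
  have hqb : ∀ g x, q (S.π g x) ≤ 1 * S.w g * q x := by
    intro g x
    rw [one_mul]
    exact avg_action S p.p u g x
  obtain ⟨B1, hB1, hK1⟩ := exists_kbd S p.p p.bound
  obtain ⟨B2, hB2, hK2⟩ := exists_kbd S q ⟨1, one_pos, hqb⟩
  set B := max B1 B2 with hBdef
  have hB : 1 ≤ B := hB1.trans (le_max_left _ _)
  have hKp : KBd S.toRep B p.p := fun k x =>
    (hK1 k x).trans (mul_le_mul_of_nonneg_right (le_max_left _ _) (apply_nonneg _ _))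
  have hKq : KBd S.toRep B q := fun k x =>
    (hK2 k x).trans (mul_le_mul_of_nonneg_right (le_max_right _ _) (apply_nonneg _ _))
  have hRp := res_rs e hpc hKp
  have hRq := res_rs e hqc hKq
  obtain ⟨C1, hC1, hU⟩ := hKU e.b e.a (rs S p.p) B e.one_le hB hRp s u hs hsu.le
  obtain ⟨C2, hC2, hL⟩ := hKL e.b e.a (rs S p.p) (rs S q) B (S.w 1) e.one_le hB hRp hRq s u
    ((u - s + ε) / 2) hs hsu (by linarith) (by
      intro x
      rw [rs_apply, rs_apply, ← D_eq_mult e u x]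
      exact avg_le S p.p u x)
  set W : ℝ := 1 + S.w 1 with hW
  have hw1 := S.w_pos 1
  -- the K-functional
  set Cm : ℝ := max Cp 1 with hCm
  have hCm0 : 0 ≤ Cm := hCp.le.trans (le_max_left _ _)
  set C3 : ℝ := C1 * W with hC3
  have hC30 : 0 ≤ C3 := mul_nonneg hC1 (by linarith)
  have kf : ∀ ρ : ℝ, 1 ≤ ρ → ∀ x : E, ∀ δ : ℝ, 0 < δ → ∃ y ∈ kfin S.toRep,
      p.p y + ρ ^ (-(u / 2)) * q (x - y) <
        ρ ^ (-(s / 2)) * (Cm * C3 * avg S p.p s x + δ) := by
    intro ρ hρ x δ hδ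
    have hρ0 : 0 < ρ := by linarith
    have hρu : 0 < ρ ^ (-(u / 2)) := Real.rpow_pos_of_pos hρ0 _
    have hρs : 0 < ρ ^ (-(s / 2)) := Real.rpow_pos_of_pos hρ0 _
    set r : Seminorm ℂ E := p.p ⊓ ((ρ ^ (-(u / 2))).toNNReal • q) with hr
    have r_apply : ∀ z, r z = ⨅ y, (p.p y + ρ ^ (-(u / 2)) * q (z - y)) := by
      intro z
      rw [hr, Seminorm.inf_apply]
      congr 1
      ext y
      rw [_root_.smul_apply, NNReal.smul_def, Real.coe_toNNReal _ hρu.le, smul_eq_mul]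
    have bdd : ∀ z, BddBelow (Set.range fun y => (p.p y + ρ ^ (-(u / 2)) * q (z - y))) := by
      intro z
      refine ⟨0, ?_⟩
      rintro _ ⟨y, rfl⟩
      have := apply_nonneg p.p y
      have := apply_nonneg q (z - y)
      positivity
    have r_le : ∀ z y, r z ≤ p.p y + ρ ^ (-(u / 2)) * q (z - y) := by
      intro z y
      rw [r_apply]
      exact ciInf_le (bdd z) y
    have r_bd : ∀ g z, r (S.π g z) ≤ Cm * S.w g * r z := by
      intro g z
      have hwg := S.w_pos g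
      apply le_of_forall_pos_le_add
      intro η hη
      have hpos : 0 < Cm * S.w g := mul_pos (lt_of_lt_of_le hCp (le_max_left _ _)) hwg
      obtain ⟨y, hy⟩ : ∃ y, p.p y + ρ ^ (-(u / 2)) * q (z - y) < r z + η / (Cm * S.w g) := by
        apply exists_lt_of_ciInf_lt
        rw [← r_apply]
        have : 0 < η / (Cm * S.w g) := by positivity
        linarith
      have h1 := r_le (S.π g z) (S.π g y)
      rw [← map_sub] at h1
      have h2 : p.p (S.π g y) ≤ Cm * S.w g * p.p y :=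
        (hp g y).trans (mul_le_mul_of_nonneg_right
          (mul_le_mul_of_nonneg_right (le_max_left _ _) hwg.le) (apply_nonneg _ _))
      have h3 : q (S.π g (z - y)) ≤ Cm * S.w g * q (z - y) :=
        (hqb g _).trans (mul_le_mul_of_nonneg_right
          (mul_le_mul_of_nonneg_right (le_max_right _ _) hwg.le) (apply_nonneg _ _))
      have h4 : Cm * S.w g * (p.p y + ρ ^ (-(u / 2)) * q (z - y)) ≤
          Cm * S.w g * (r z + η / (Cm * S.w g)) := mul_le_mul_of_nonneg_left hy.le hpos.le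
      have h5 : Cm * S.w g * (η / (Cm * S.w g)) = η := by
        rw [mul_div_assoc', mul_div_cancel_left₀ _ hpos.ne']
      have h6 : ρ ^ (-(u / 2)) * q (S.π g (z - y)) ≤
          ρ ^ (-(u / 2)) * (Cm * S.w g * q (z - y)) := mul_le_mul_of_nonneg_left h3 hρu.le
      nlinarith
    have r_cont : Continuous r := by
      apply Seminorm.continuous_of_le hpc
      exact inf_le_left
    have r_sob : ∀ z, r z ≤ (C3 * ρ ^ (-(s / 2))) * p.p (S.D s z) := by
      apply le_of_kfin S r_cont (continuous_const.mul (continuous_sob S hpc s))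
      intro z hz
      obtain ⟨x0, x1, hx, h0, h1⟩ := hU ρ ⟨z, hz⟩ hρ
      rw [rs_apply, rs_apply, ← D_eq_mult e s ⟨z, hz⟩] at h0 h1
      rw [← D_eq_mult e u x1] at h1
      have hx' : z = (x0 : E) + (x1 : E) := congrArg Subtype.val hx
      have h2 := r_le z x0
      have h3 : z - (x0 : E) = (x1 : E) := by
        rw [hx']
        abel
      rw [h3] at h2
      have h4 : q (x1 : E) ≤ S.w 1 * p.p (S.D u (x1 : E)) := avg_le S p.p u _
      have h5 : ρ ^ (-(u / 2)) * q (x1 : E) ≤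
          ρ ^ (-(u / 2)) * (S.w 1 * (C1 * ρ ^ ((u - s) / 2) * p.p (S.D s z))) :=
        mul_le_mul_of_nonneg_left (h4.trans (mul_le_mul_of_nonneg_left h1 hw1.le)) hρu.le
      have h6 : ρ ^ (-(u / 2)) * ρ ^ ((u - s) / 2) = ρ ^ (-(s / 2)) := by
        rw [← Real.rpow_add hρ0]
        congr 1
        ring
      have h7 : ρ ^ (-(u / 2)) * (S.w 1 * (C1 * ρ ^ ((u - s) / 2) * p.p (S.D s z))) =
          S.w 1 * C1 * ρ ^ (-(s / 2)) * p.p (S.D s z) := by
        rw [← h6]
        ring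
      rw [h7] at h5
      calc r z ≤ p.p (x0 : E) + ρ ^ (-(u / 2)) * q (x1 : E) := h2
        _ ≤ C1 * ρ ^ (-(s / 2)) * p.p (S.D s z) + S.w 1 * C1 * ρ ^ (-(s / 2)) * p.p (S.D s z) :=
            add_le_add h0 h5
        _ = (C3 * ρ ^ (-(s / 2))) * p.p (S.D s z) := by
            rw [hC3, hW]
            ring
    have h8 := le_avg S p.p r s hCm0 r_bd r_sob x
    have h9 : r x < ρ ^ (-(s / 2)) * (Cm * C3 * avg S p.p s x + δ) := by
      have : 0 < ρ ^ (-(s / 2)) * δ := mul_pos hρs hδ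
      nlinarith
    rw [r_apply] at h9
    obtain ⟨y, hy⟩ := exists_lt_of_ciInf_lt h9
    have hopen : IsOpen {y : E | p.p y + ρ ^ (-(u / 2)) * q (x - y) <
        ρ ^ (-(s / 2)) * (Cm * C3 * avg S p.p s x + δ)} := by
      apply isOpen_lt _ continuous_const
      exact hpc.add (continuous_const.mul (hqc.comp (continuous_const.sub continuous_id)))
    obtain ⟨y', h1, h2⟩ := S.dense_kfin.exists_mem_open hopen ⟨y, hy⟩
    exact ⟨y', h1, h2⟩
  refine ⟨C2 * (Cm * C3), mul_nonneg hC2 (mul_nonneg hCm0 hC30), ?_⟩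
  intro x hx
  set z : kfin S.toRep := mult e.b e.a (fun t => t ^ ((u - s + ε) / 2)) ⟨x, hx⟩ with hz
  have hz1 : (z : E) = S.D (u - s + ε) x := (D_eq_mult e (u - s + ε) ⟨x, hx⟩).symm
  have hz2 : mult e.b e.a (fun t => t ^ (-((u - s + ε) / 2))) z = ⟨x, hx⟩ := by
    rw [hz, mult_mult, mult_congr e.b e.a (g := fun _ => 1), mult_const]
    · simp
    · intro i
      rw [← Real.rpow_add (by linarith [e.one_le i])]
      simp
  apply le_of_forall_pos_le_add
  intro η hη
  have hδ : 0 < η / (C2 + 1) := by positivity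
  have h1 := hL z (Cm * C3 * avg S p.p s (z : E) + η / (C2 + 1))
    (by have := mul_nonneg (mul_nonneg hCm0 hC30) (avg_nonneg S p.p s (z : E))
        linarith) (by
      intro ρ hρ
      obtain ⟨y, hy, h⟩ := kf ρ hρ (z : E) (η / (C2 + 1)) hδ
      refine ⟨⟨y, hy⟩, z - ⟨y, hy⟩, by abel, ?_⟩
      rw [rs_apply, rs_apply]
      exact h.le)
  rw [hz2, rs_apply, hz1] at h1
  have h2 : C2 * (η / (C2 + 1)) ≤ η := by
    rw [mul_div_assoc', div_le_iff₀ (by positivity)]
    nlinarith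
  have h3 : q x = avg S p.p u x := rfl
  have h4 : q ((⟨x, hx⟩ : kfin S.toRep) : E) = avg S p.p u x := rfl
  rw [h4] at h1
  nlinarith

end Q4.SN
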