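import Pool.Agent.Q4.SN.Main

/-!
# The space `Norm(V, w)` with the distance `d`
-/

open Filter Topology Set
open scoped NNReal ENNReal

namespace Q4.SN

universe u v

variable {G : Type u} [Group G] [TopologicalSpace G]
variable {E : Type v} [AddCommGroup E] [Module ℂ E] [TopologicalSpace E]

theorem dArrow_le {S : Setup G E} {p q : Seminorm ℂ E} {s : ℝ≥0} (h : LeSob S p q s) :
    dArrow S p q ≤ s := iInf₂_le s h

theorem exists_leSob {S : Setup G E} {p q : Seminorm ℂ E} {c : ℝ≥0∞} (h : dArrow S p q < c) :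
    ∃ s : ℝ≥0, LeSob S p q s ∧ (s : ℝ≥0∞) < c := by
  unfold dArrow at h
  simp only [iInf_lt_iff] at h
  obtain ⟨s, hs, h⟩ := h
  exact ⟨s, hs, h⟩

theorem leSob_of {S : Setup G E} {p q : Seminorm ℂ E} {s C : ℝ}
    (h : ∀ v ∈ kfin S.toRep, p v ≤ C * q (S.D s v)) : LeSob S p q s := by
  refine ⟨max C 1, lt_of_lt_of_le one_pos (le_max_right _ _), ?_⟩
  intro v hv
  exact (h v hv).trans (mul_le_mul_of_nonneg_right (le_max_left _ _) (apply_nonneg _ _))

theorem dArrow_self (S : Setup G E) (e : EBasis S) (p : Seminorm ℂ E) : dArrow S p p = 0 := by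
  have : LeSob S p p ((0 : ℝ≥0) : ℝ) := by
    apply leSob_of (C := 1)
    intro v hv
    rw [NNReal.coe_zero, D_zero S e hv, one_mul]
  have h := dArrow_le this
  simpa using h

theorem leSob_trans (S : Setup G E) (e : EBasis S) {p q r : Seminorm ℂ E} {s t : ℝ}
    (h1 : LeSob S p q s) (h2 : LeSob S q r t) : LeSob S p r (s + t) := by
  obtain ⟨C, hC, h1⟩ := h1
  obtain ⟨C', hC', h2⟩ := h2
  refine ⟨C * C', mul_pos hC hC', ?_⟩
  intro v hv
  have a1 := h1 v hv
  have a2 := h2 _ (D_mem S e s hv)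
  rw [D_D S e t s hv, add_comm t s] at a2
  calc p v ≤ C * q (S.D s v) := a1
    _ ≤ C * (C' * r (S.D (s + t) v)) := mul_le_mul_of_nonneg_left a2 hC.le
    _ = _ := by ring

theorem dArrow_triangle (S : Setup G E) (e : EBasis S) (p q r : Seminorm ℂ E) :
    dArrow S p r ≤ dArrow S p q + dArrow S q r := by
  apply ENNReal.le_of_forall_pos_le_add
  intro ε hε hfin
  have h1 : dArrow S p q < ⊤ := lt_of_le_of_lt le_self_add hfin
  have h2 : dArrow S q r < ⊤ := lt_of_le_of_lt le_add_self hfin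
  have hε2 : (0 : ℝ≥0∞) < ((ε / 2 : ℝ≥0) : ℝ≥0∞) := by
    rw [ENNReal.coe_pos]
    exact half_pos hε
  obtain ⟨s, hs, hs'⟩ := exists_leSob (c := dArrow S p q + ((ε / 2 : ℝ≥0) : ℝ≥0∞))
    (ENNReal.lt_add_right h1.ne hε2.ne')
  obtain ⟨t, ht, ht'⟩ := exists_leSob (c := dArrow S q r + ((ε / 2 : ℝ≥0) : ℝ≥0∞))
    (ENNReal.lt_add_right h2.ne hε2.ne')
  have h3 : LeSob S p r ((s + t : ℝ≥0) : ℝ) := by
    rw [NNReal.coe_add]
    exact leSob_trans S e hs ht
  calc dArrow S p r ≤ ((s + t : ℝ≥0) : ℝ≥0∞) := dArrow_le h3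
    _ = (s : ℝ≥0∞) + t := ENNReal.coe_add s t
    _ ≤ (dArrow S p q + ((ε / 2 : ℝ≥0) : ℝ≥0∞)) + (dArrow S q r + ((ε / 2 : ℝ≥0) : ℝ≥0∞)) :=
        add_le_add hs'.le ht'.le
    _ = dArrow S p q + dArrow S q r + (((ε / 2 : ℝ≥0) : ℝ≥0∞) + ((ε / 2 : ℝ≥0) : ℝ≥0∞)) := by
        abel
    _ = dArrow S p q + dArrow S q r + ε := by
        rw [← ENNReal.coe_add, add_halves]

/-- The space `Norm(V, w)` with `d(p, q) = max (d_→(p, q), d_→(q, p))`. -/
noncomputable instance instPseudoEMetricSpaceNormW [IsTopologicalAddGroup E] [ContinuousSMul ℂ E]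
    (S : Setup G E) : PseudoEMetricSpace (NormW S) where
  edist p q := max (dArrow S p.p q.p) (dArrow S q.p p.p)
  edist_self p := by
    obtain ⟨e⟩ := exists_ebasis S p
    simp [dArrow_self S e]
  edist_comm p q := max_comm _ _
  edist_triangle p q r := by
    obtain ⟨e⟩ := exists_ebasis S p
    apply max_le
    · exact (dArrow_triangle S e _ _ _).trans (add_le_add (le_max_left _ _) (le_max_left _ _))
    · refine (dArrow_triangle S e _ q.p _).trans ?_
      rw [add_comm]
      exact add_le_add (le_max_right _ _) (le_max_right _ _)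

theorem edist_eq [IsTopologicalAddGroup E] [ContinuousSMul ℂ E] {S : Setup G E} (p q : NormW S) :
    edist p q = max (dArrow S p.p q.p) (dArrow S q.p p.p) := rfl

/-- The averaged norm `p_s^G` is again in `Norm(V, w)`. -/
noncomputable def avgN [IsTopologicalAddGroup E] [ContinuousSMul ℂ E] (hN : SNEG.{v, v})
    (S : Setup G E) (s : ℝ≥0) (p : NormW S) : NormW S where
  p := avgS S p.p s
  continuous_p := continuous_avgS S p.continuous_p s
  eq_zero := by
    intro x hx
    obtain ⟨e⟩ := exists_ebasis S p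
    obtain ⟨B, hB, hK⟩ := exists_kbd S p.p p.bound
    obtain ⟨C, hC, h⟩ := sob_mono hN S e p.continuous_p hB hK (s := 0) (t := s) s.2
    obtain ⟨Cp, hCp, hp⟩ := p.bound
    have h0 : ∀ x, p.p x ≤ 1 * p.p (S.D 0 x) := by
      apply le_of_kfin S p.continuous_p (continuous_const.mul (continuous_sob S p.continuous_p 0))
      intro y hy
      change p.p y ≤ 1 * p.p (S.D 0 y)
      rw [D_zero S e hy, one_mul]
    have h1 : ∀ x, p.p x ≤ C * p.p (S.D s x) := by
      intro y
      have := h0 y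
      rw [one_mul] at this
      exact this.trans (h y)
    have h2 := le_avg S p.p p.p s hCp.le hp h1 x
    have h3 : avg S p.p s x = 0 := hx
    rw [h3, mul_zero] at h2
    exact p.eq_zero x (le_antisymm h2 (apply_nonneg _ _))
  bound := ⟨1, one_pos, fun g x => by
    rw [one_mul]
    exact avg_action S p.p s g x⟩

theorem dArrow_avg [IsTopologicalAddGroup E] [ContinuousSMul ℂ E] (hN : SNEG.{v, v})
    (hKU : SKUP.{v, v}) (hKL : SKLOW.{v, v}) (S : Setup G E) (p q : NormW S) (s t : ℝ≥0) :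
    dArrow S (avgS S p.p s) (avgS S q.p t) ≤ (s - t : ℝ≥0) + dArrow S p.p q.p := by
  obtain ⟨e⟩ := exists_ebasis S p
  apply ENNReal.le_of_forall_pos_le_add
  intro ε hε hfin
  have h1 : dArrow S p.p q.p < ⊤ := lt_of_le_of_lt le_add_self hfin
  have hε2 : (0 : ℝ≥0∞) < ((ε / 2 : ℝ≥0) : ℝ≥0∞) := by
    rw [ENNReal.coe_pos]
    exact half_pos hε
  obtain ⟨r, hr, hr'⟩ := exists_leSob (c := dArrow S p.p q.p + ((ε / 2 : ℝ≥0) : ℝ≥0∞))
    (ENNReal.lt_add_right h1.ne hε2.ne')
  obtain ⟨C, hC, hr⟩ := hr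
  -- `p_s ≤ C q_{s + r}` on `E`
  have hDD : ∀ x, q.p (S.D r (S.D s x)) ≤ 1 * q.p (S.D (s + r) x) := by
    apply le_of_kfin S ((continuous_sob S q.continuous_p r).comp (S.D s).continuous)
      (continuous_const.mul (continuous_sob S q.continuous_p _))
    intro x hx
    change q.p (S.D r (S.D s x)) ≤ 1 * q.p (S.D (s + r) x)
    rw [D_D S e r s hx, add_comm (r : ℝ) s, one_mul]
  have h2 : ∀ x, p.p (S.D s x) ≤ C * q.p (S.D (s + r) x) := by
    have h3 : ∀ x, p.p x ≤ C * q.p (S.D r x) :=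
      le_of_kfin S p.continuous_p (continuous_const.mul (continuous_sob S q.continuous_p _)) hr
    intro x
    have := hDD x
    rw [one_mul] at this
    exact (h3 _).trans (mul_le_mul_of_nonneg_left this hC.le)
  have h4 : ∀ x, avg S p.p s x ≤ C * avg S q.p (s + r) x := avg_mono S p.p q.p s (s + r) hC.le h2
  rcases le_or_gt ((s : ℝ) + r) t with hle | hlt
  · obtain ⟨B, hB, hK⟩ := exists_kbd S q.p q.bound
    obtain ⟨C', hC', h5⟩ := sob_mono hN S e q.continuous_p hB hK hle
    have h6 := avg_mono S q.p q.p (s + r) t hC' h5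
    have h7 : LeSob S (avgS S p.p s) (avgS S q.p t) ((0 : ℝ≥0) : ℝ) := by
      apply leSob_of (C := C * C')
      intro v hv
      rw [NNReal.coe_zero, D_zero S e hv, avgS_apply, avgS_apply]
      calc avg S p.p s v ≤ C * avg S q.p (s + r) v := h4 v
        _ ≤ C * (C' * avg S q.p t v) := mul_le_mul_of_nonneg_left (h6 v) hC.le
        _ = _ := by ring
    refine (dArrow_le h7).trans ?_
    simp
  · obtain ⟨C', hC', h5⟩ := main_est hKU hKL S e q (s := t) (u := s + r) (ε := ((ε / 2 : ℝ≥0) : ℝ))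
      t.2 hlt (by exact_mod_cast half_pos hε)
    have hsub : ((t : ℝ)) ≤ s + r := hlt.le
    have hnn : (((s + r - t : ℝ≥0) + ε / 2 : ℝ≥0) : ℝ) = (s : ℝ) + r - t + ((ε / 2 : ℝ≥0) : ℝ) := by
      rw [NNReal.coe_add, NNReal.coe_sub (by exact_mod_cast hsub), NNReal.coe_add]
    have h7 : LeSob S (avgS S p.p s) (avgS S q.p t) (((s + r - t : ℝ≥0) + ε / 2 : ℝ≥0) : ℝ) := by
      apply leSob_of (C := C * C')
      intro v hv
      rw [hnn, avgS_apply, avgS_apply]
      calc avg S p.p s v ≤ C * avg S q.p (s + r) v := h4 v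
        _ ≤ C * (C' * avg S q.p t (S.D (s + r - t + ((ε / 2 : ℝ≥0) : ℝ)) v)) :=
            mul_le_mul_of_nonneg_left (h5 v hv) hC.le
        _ = _ := by ring
    refine (dArrow_le h7).trans ?_
    have h8 : ((s + r - t : ℝ≥0) : ℝ≥0∞) ≤ (s - t : ℝ≥0) + (r : ℝ≥0∞) := by
      rw [← ENNReal.coe_add, ENNReal.coe_le_coe, tsub_le_iff_right]
      have : s ≤ (s - t) + t := le_tsub_add
      calc s + r ≤ ((s - t) + t) + r := add_le_add_left this r
        _ = s - t + r + t := by ring
    calc (((s + r - t : ℝ≥0) + ε / 2 : ℝ≥0) : ℝ≥0∞)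
        = ((s + r - t : ℝ≥0) : ℝ≥0∞) + ((ε / 2 : ℝ≥0) : ℝ≥0∞) := ENNReal.coe_add _ _
      _ ≤ ((s - t : ℝ≥0) + (r : ℝ≥0∞)) + ((ε / 2 : ℝ≥0) : ℝ≥0∞) := add_le_add h8 le_rfl
      _ ≤ ((s - t : ℝ≥0) + (dArrow S p.p q.p + ((ε / 2 : ℝ≥0) : ℝ≥0∞))) +
          ((ε / 2 : ℝ≥0) : ℝ≥0∞) := by
            gcongr
      _ = (s - t : ℝ≥0) + dArrow S p.p q.p +
          (((ε / 2 : ℝ≥0) : ℝ≥0∞) + ((ε / 2 : ℝ≥0) : ℝ≥0∞)) := by abel
      _ = (s - t : ℝ≥0) + dArrow S p.p q.p + ε := by
        rw [← ENNReal.coe_add, add_halves]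

theorem edist_avg [IsTopologicalAddGroup E] [ContinuousSMul ℂ E] (hN : SNEG.{v, v})
    (hKU : SKUP.{v, v}) (hKL : SKLOW.{v, v}) (S : Setup G E) (p q : NormW S) (s t : ℝ≥0) :
    edist (avgN hN S s p) (avgN hN S t q) ≤ edist s t + edist p q := by
  have e1 : ((s - t : ℝ≥0) : ℝ≥0∞) ≤ edist s t := by
    rw [edist_nndist, NNReal.nndist_eq, ENNReal.coe_le_coe]
    exact le_max_left _ _
  have e2 : ((t - s : ℝ≥0) : ℝ≥0∞) ≤ edist s t := by
    rw [edist_nndist, NNReal.nndist_eq, ENNReal.coe_le_coe]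
    exact le_max_right _ _
  rw [edist_eq, edist_eq]
  apply max_le
  · exact (dArrow_avg hN hKU hKL S p q s t).trans (add_le_add e1 (le_max_left _ _))
  · exact (dArrow_avg hN hKU hKL S q p t s).trans (add_le_add e2 (le_max_right _ _))

/-- Decompositions within `V`. -/
theorem avg_kfin [IsTopologicalAddGroup E] [ContinuousSMul ℂ E] (S : Setup G E) (p : NormW S)
    (s : ℝ) {x : E} (hx : x ∈ kfin S.toRep) :
    avg S p.p s x = sInf {r : ℝ | ∃ l : List (G × E), (∀ z ∈ l, z.2 ∈ kfin S.toRep) ∧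
      (l.map Prod.snd).sum = x ∧ r = cost S p.p s l} := by
  set A : Set ℝ := {r : ℝ | ∃ l : List (G × E), (∀ z ∈ l, z.2 ∈ kfin S.toRep) ∧
      (l.map Prod.snd).sum = x ∧ r = cost S p.p s l} with hA
  have hne : A.Nonempty := ⟨_, [(1, x)], by simpa using hx, by simp, rfl⟩
  have hbd : BddBelow A := by
    refine ⟨0, ?_⟩
    rintro r ⟨l, _, _, rfl⟩
    exact cost_nonneg S p.p s l
  apply le_antisymm
  · apply le_csInf hne
    rintro r ⟨l, _, hl, rfl⟩
    rw [← hl]
    exact avg_le_cost S p.p s l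
  · have key : ∀ (l : List (G × E)) (δ : ℝ), 0 < δ → ∃ l' : List (G × E),
        (∀ z ∈ l', z.2 ∈ kfin S.toRep) ∧ cost S p.p s l' ≤ cost S p.p s l + δ ∧
          p.p (S.D s ((l.map Prod.snd).sum - (l'.map Prod.snd).sum)) ≤ δ := by
      intro l
      induction l with
      | nil =>
        intro δ hδ
        exact ⟨[], by simp, by linarith, by simpa using hδ.le⟩
      | cons z l ih =>
        intro δ hδ
        obtain ⟨l', h1, h2, h3⟩ := ih (δ / 2) (by linarith)
        have hc1 : Continuous fun y : E => S.w z.1⁻¹ * p.p (S.D s (S.π z.1 y)) :=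
          continuous_const.mul ((continuous_sob S p.continuous_p s).comp (S.π z.1).continuous)
        have hc2 : Continuous fun y : E => p.p (S.D s (z.2 - y)) :=
          (continuous_sob S p.continuous_p s).comp (continuous_const.sub continuous_id)
        have ho : IsOpen ({y : E | S.w z.1⁻¹ * p.p (S.D s (S.π z.1 y)) <
            S.w z.1⁻¹ * p.p (S.D s (S.π z.1 z.2)) + δ / 2} ∩
            {y : E | p.p (S.D s (z.2 - y)) < δ / 2}) :=
          (isOpen_lt hc1 continuous_const).inter (isOpen_lt hc2 continuous_const)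
        obtain ⟨y, hy, hy1, hy2⟩ := S.dense_kfin.exists_mem_open ho ⟨z.2, by
          simp only [Set.mem_ofPred_eq]
          linarith, by
          simp only [Set.mem_ofPred_eq, sub_self, map_zero]
          linarith⟩
        simp only [Set.mem_ofPred_eq] at hy1 hy2
        refine ⟨(z.1, y) :: l', ?_, ?_, ?_⟩
        · intro z' hz'
          rcases List.mem_cons.mp hz' with rfl | h
          · exact hy
          · exact h1 z' h
        · have a1 : cost S p.p s ((z.1, y) :: l') = S.w z.1⁻¹ * p.p (S.D s (S.π z.1 y)) +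
              cost S p.p s l' := by simp [cost]
          have a2 : cost S p.p s (z :: l) = S.w z.1⁻¹ * p.p (S.D s (S.π z.1 z.2)) +
              cost S p.p s l := by simp [cost]
          rw [a1, a2]
          linarith
        · have a3 : ((z :: l).map Prod.snd).sum - (((z.1, y) :: l').map Prod.snd).sum =
              (z.2 - y) + ((l.map Prod.snd).sum - (l'.map Prod.snd).sum) := by
            simp only [List.map_cons, List.sum_cons]
            abel
          rw [a3, map_add]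
          refine (map_add_le_add p.p _ _).trans ?_
          linarith
    have hw1 := S.w_pos 1
    apply le_of_forall_pos_le_add
    intro ε hε
    obtain ⟨l, hl, hl2⟩ := exists_cost_lt S p.p s x (c := avg S p.p s x + ε / 2) (by linarith)
    set δ : ℝ := ε / 2 / (1 + S.w 1) with hδ
    have hδ0 : 0 < δ := by positivity
    obtain ⟨l', h1, h2, h3⟩ := key l δ hδ0
    rw [hl] at h3
    have hmem : (l'.map Prod.snd).sum ∈ kfin S.toRep := by
      apply list_sum_mem
      intro y hy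
      obtain ⟨z, hz, rfl⟩ := List.mem_map.mp hy
      exact h1 z hz
    have h4 : sInf A ≤ cost S p.p s ((1, x - (l'.map Prod.snd).sum) :: l') := by
      apply csInf_le hbd
      refine ⟨_, ?_, ?_, rfl⟩
      · intro z' hz'
        rcases List.mem_cons.mp hz' with rfl | h
        · exact Submodule.sub_mem _ hx hmem
        · exact h1 z' h
      · simp
    have h5 : cost S p.p s ((1, x - (l'.map Prod.snd).sum) :: l') =
        S.w 1 * p.p (S.D s (x - (l'.map Prod.snd).sum)) + cost S p.p s l' := by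
      simp [cost]
    rw [h5] at h4
    have h6 : S.w 1 * p.p (S.D s (x - (l'.map Prod.snd).sum)) ≤ S.w 1 * δ :=
      mul_le_mul_of_nonneg_left h3 hw1.le
    have h7 : (1 + S.w 1) * δ = ε / 2 := by
      rw [hδ, mul_div_assoc', mul_div_cancel_left₀ _ (by positivity)]
    nlinarith

end Q4.SN
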